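import Mathlib
import Pool.Agent.H709R2.Indicatrix

/-! The number of points of a level set is bounded on average by the variation, for functions on
arbitrary sets of real numbers. -/

open Set MeasureTheory Topology Filter
open scoped ENNReal

namespace Pool.Agent.TH525.PU

open Pool.Agent.H709R2

lemma volume_image_le (S : ℝ → ℝ) (A : Set ℝ) : volume (S '' A) ≤ eVariationOn S A := by
  refine (Real.volume_le_diam _).trans ?_
  refine Metric.ediam_le ?_
  rintro _ ⟨x, hx, rfl⟩ _ ⟨y, hy, rfl⟩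
  exact eVariationOn.edist_le S hx hy

lemma sum_variation_le (S : ℝ → ℝ) (E : Set ℝ) (k : ℕ) (F : Finset ℤ) :
    ∑ j ∈ F, eVariationOn S (E ∩ dy k j) ≤ eVariationOn S (E ∩ ⋃ j ∈ F, dy k j) := by
  induction F using Finset.induction_on_max with
  | empty => simp
  | insert a F ha ih =>
    have hn : a ∉ F := fun h => lt_irrefl _ (ha a h)
    rw [Finset.sum_insert hn, add_comm]
    have h1 := eVariationOn.add_le_union S (s := E ∩ ⋃ j ∈ F, dy k j) (t := E ∩ dy k a) (by
      rintro x ⟨-, hx⟩ y ⟨-, hy⟩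
      simp only [mem_iUnion, exists_prop] at hx
      obtain ⟨j, hj, hx⟩ := hx
      have h2 := ha j hj
      simp only [dy, mem_setOf_eq] at hx hy
      by_contra hlt
      push Not at hlt
      have h3 : y * 2 ^ k ≤ x * 2 ^ k := by
        have : (0:ℝ) < 2 ^ k := by positivity
        nlinarith
      have h4 := Int.floor_le_floor h3
      omega)
    refine (add_le_add_left ih _).trans (h1.trans ?_)
    apply eVariationOn.mono
    rintro x (⟨h2, h3⟩ | ⟨h2, h3⟩)
    · refine ⟨h2, ?_⟩
      simp only [mem_iUnion, exists_prop] at h3 ⊢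
      obtain ⟨j, hj, h⟩ := h3
      exact ⟨j, Finset.mem_insert_of_mem hj, h⟩
    · refine ⟨h2, ?_⟩
      simp only [mem_iUnion, exists_prop]
      exact ⟨a, Finset.mem_insert_self _ _, h3⟩

/-- The number of points of `E` at which `S` takes the value `y` has a measurable majorant whose
integral is at most the variation of `S` on `E`. -/
theorem majorant (S : ℝ → ℝ) (E : Set ℝ) :
    ∃ g : ℝ → ℝ≥0∞, Measurable g ∧ (∀ y, ((E ∩ S ⁻¹' {y}).encard : ℝ≥0∞) ≤ g y) ∧
      ∫⁻ y, g y ≤ eVariationOn S E := by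
  set G : ℕ → ℝ → ℝ≥0∞ := fun k β =>
    ∑' j : ℤ, (toMeasurable volume (S '' (E ∩ dy k j))).indicator (fun _ => (1:ℝ≥0∞)) β with hG
  have hGm : ∀ k, Measurable (G k) := by
    intro k
    refine Measurable.tsum fun j => ?_
    exact measurable_const.indicator (measurableSet_toMeasurable _ _)
  have hGi : ∀ k, ∫⁻ β, G k β ≤ eVariationOn S E := by
    intro k
    have e1 : ∫⁻ β, G k β = ∑' j : ℤ, volume (S '' (E ∩ dy k j)) := by
      simp only [hG]
      rw [lintegral_tsum (fun j =>
        (measurable_const.indicator (measurableSet_toMeasurable _ _)).aemeasurable)]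
      congr 1
      ext j
      rw [lintegral_indicator (measurableSet_toMeasurable _ _)]
      simp
    rw [e1]
    rw [ENNReal.tsum_eq_iSup_sum]
    refine iSup_le fun F => ?_
    refine (Finset.sum_le_sum fun j _ => volume_image_le S _).trans ?_
    refine (sum_variation_le S E k F).trans ?_
    exact eVariationOn.mono _ inter_subset_left
  refine ⟨fun β => liminf (fun k => G k β) atTop, Measurable.liminf hGm, ?_, ?_⟩
  · intro β
    refine encard_le_of_finset fun F hF => ?_
    have hsep : ∃ k₀ : ℕ, ∀ k ≥ k₀, ∀ x ∈ F, ∀ y ∈ F, ⌊x * 2 ^ k⌋ = ⌊y * 2 ^ k⌋ → x = y := by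
      have hfin : ∀ q ∈ F ×ˢ F, ∃ k₀ : ℕ, ∀ k ≥ k₀, ⌊q.1 * 2 ^ k⌋ = ⌊q.2 * 2 ^ k⌋ → q.1 = q.2 := by
        rintro ⟨x, y⟩ -
        by_cases hxy : x = y
        · exact ⟨0, fun k _ _ => hxy⟩
        · have hd : 0 < |x - y| := abs_pos.2 (sub_ne_zero.2 hxy)
          obtain ⟨k₀, hk₀⟩ := exists_nat_gt (1 / |x - y|)
          refine ⟨k₀, fun k hk hfl => ?_⟩
          exfalso
          have h1 : |x * 2 ^ k - y * 2 ^ k| < 1 := Int.abs_sub_lt_one_of_floor_eq_floor hfl
          rw [← sub_mul, abs_mul, abs_of_pos (by positivity : (0:ℝ) < 2 ^ k)] at h1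
          have h2 : (k₀ : ℝ) ≤ 2 ^ k := by
            have h3 : k < 2 ^ k := Nat.lt_two_pow_self
            have h4 : (k₀ : ℝ) ≤ k := by exact_mod_cast hk
            have h5 : (k : ℝ) ≤ 2 ^ k := by exact_mod_cast h3.le
            linarith
          have h6 : 1 < |x - y| * 2 ^ k := by
            rw [div_lt_iff₀ hd] at hk₀
            nlinarith
          linarith
      choose! kk hkk using hfin
      refine ⟨(F ×ˢ F).sup kk, fun k hk x hx y hy h => ?_⟩
      have hm : (x, y) ∈ F ×ˢ F := Finset.mk_mem_product hx hy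
      exact hkk (x, y) hm k ((Finset.le_sup hm).trans hk) h
    obtain ⟨k₀, hk₀⟩ := hsep
    refine le_liminf_of_le (by isBoundedDefault) ?_
    filter_upwards [eventually_ge_atTop k₀] with k hk
    have hinj : ∀ x ∈ F, ∀ y ∈ F, (fun x : ℝ => ⌊x * 2 ^ k⌋) x = (fun x : ℝ => ⌊x * 2 ^ k⌋) y → x = y :=
      fun x hx y hy => hk₀ k hk x hx y hy
    have hcard : (F.image fun x : ℝ => ⌊x * 2 ^ k⌋).card = F.card :=
      Finset.card_image_of_injOn fun x hx y hy h => hinj x hx y hy h
    calc (F.card : ℝ≥0∞) = ∑ j ∈ F.image (fun x : ℝ => ⌊x * 2 ^ k⌋), (1:ℝ≥0∞) := by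
          rw [Finset.sum_const, hcard]; simp
      _ ≤ ∑ j ∈ F.image (fun x : ℝ => ⌊x * 2 ^ k⌋),
          (toMeasurable volume (S '' (E ∩ dy k j))).indicator (fun _ => (1:ℝ≥0∞)) β := by
          refine Finset.sum_le_sum fun j hj => ?_
          obtain ⟨x, hx, rfl⟩ := Finset.mem_image.1 hj
          have h1 := hF hx
          have h2 : β ∈ toMeasurable volume (S '' (E ∩ dy k ⌊x * 2 ^ k⌋)) := by
            apply subset_toMeasurable
            exact ⟨x, ⟨h1.1, rfl⟩, h1.2⟩
          rw [indicator_of_mem h2]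
      _ ≤ G k β := ENNReal.sum_le_tsum _
  · refine (lintegral_liminf_le hGm).trans ?_
    refine liminf_le_of_le (by isBoundedDefault) fun b hb => ?_
    obtain ⟨k, hk⟩ := hb.exists
    exact hk.trans (hGi k)

end Pool.Agent.TH525.PU
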