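import Mathlib
import Pool.Agent.TH525.PU.Ind

/-! Closed solutions of `x' = f(t,x) + s` for different `s` are ordered, and their number is
bounded on average by the variation of `f` in `x`. -/

open Set MeasureTheory Topology Filter
open scoped ENNReal NNReal

namespace Pool.Agent.TH525.PU

/-- `φ` is a closed solution, `φ 0 = φ T`, of the equation `x' = f(t, x) + s` on `[0, T]`, with
values in the set `V`. -/
structure IsClosedSol (T : ℝ) (V : Set ℝ) (f : ℝ → ℝ → ℝ) (s : ℝ) (φ : ℝ → ℝ) : Prop where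
  deriv : ∀ t ∈ Icc 0 T, HasDerivWithinAt φ (f t (φ t) + s) (Icc 0 T) t
  closed : φ 0 = φ T
  mem : ∀ t ∈ Icc 0 T, φ t ∈ V

/-- The set of the closed solutions, as functions on the interval `[0, T]`. -/
def closedSols (T : ℝ) (V : Set ℝ) (f : ℝ → ℝ → ℝ) (s : ℝ) : Set (Icc 0 T → ℝ) :=
  {g | ∃ φ, IsClosedSol T V f s φ ∧ g = (Icc 0 T).domRestrict φ}

lemma deriv_nonpos_left {h : ℝ → ℝ} {D p q : ℝ} (hpq : p < q)
    (hd : HasDerivWithinAt h D (Icc p q) q) (hz : ∀ t ∈ Ico p q, h q ≤ h t) : D ≤ 0 := by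
  have h1 : HasDerivWithinAt h D (Ioo p q) q := hd.mono Ioo_subset_Icc_self
  rw [hasDerivWithinAt_iff_tendsto_slope' (by simp)] at h1
  have hne : (𝓝[Ioo p q] q).NeBot := by
    rw [← mem_closure_iff_nhdsWithin_neBot, closure_Ioo hpq.ne]
    exact right_mem_Icc.2 hpq.le
  refine le_of_tendsto h1 ?_
  filter_upwards [self_mem_nhdsWithin] with t ht
  rw [slope_def_field]
  have h2 := hz t ⟨ht.1.le, ht.2⟩
  exact div_nonpos_of_nonneg_of_nonpos (by linarith) (by linarith [ht.2])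

lemma deriv_nonneg_right {h : ℝ → ℝ} {D p q : ℝ} (hpq : p < q)
    (hd : HasDerivWithinAt h D (Icc p q) p) (hz : ∀ t ∈ Ioc p q, h p ≤ h t) : 0 ≤ D := by
  have h1 : HasDerivWithinAt h D (Ioo p q) p := hd.mono Ioo_subset_Icc_self
  rw [hasDerivWithinAt_iff_tendsto_slope' (by simp)] at h1
  have hne : (𝓝[Ioo p q] p).NeBot := by
    rw [← mem_closure_iff_nhdsWithin_neBot, closure_Ioo hpq.ne]
    exact left_mem_Icc.2 hpq.le
  refine ge_of_tendsto h1 ?_
  filter_upwards [self_mem_nhdsWithin] with t ht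
  rw [slope_def_field]
  have h2 := hz t ⟨ht.1, ht.2.le⟩
  exact div_nonneg (by linarith) (by linarith [ht.1])

lemma first_zero {h : ℝ → ℝ} {p q : ℝ} (hpq : p ≤ q) (hc : ContinuousOn h (Icc p q))
    (hp : 0 < h p) (hq : h q ≤ 0) : ∃ r ∈ Ioc p q, h r = 0 ∧ ∀ t ∈ Ico p r, 0 < h t := by
  set A : Set ℝ := Icc p q ∩ h ⁻¹' Iic 0 with hA
  have hAc : IsCompact A := by
    refine IsCompact.of_isClosed_subset isCompact_Icc ?_ inter_subset_left
    exact hc.preimage_isClosed_of_isClosed isClosed_Icc isClosed_Iic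
  have hAn : A.Nonempty := ⟨q, right_mem_Icc.2 hpq, hq⟩
  have hr := hAc.sInf_mem hAn
  set r := sInf A with hrdef
  have hlt : ∀ t ∈ Ico p r, 0 < h t := by
    intro t ht
    by_contra hcon
    push Not at hcon
    have : t ∈ A := ⟨⟨ht.1, ht.2.le.trans hr.1.2⟩, hcon⟩
    exact absurd (csInf_le hAc.bddBelow this) (not_le.2 ht.2)
  have hpr : p < r := by
    rcases lt_or_eq_of_le hr.1.1 with h1 | h1
    · exact h1
    · exfalso
      have := hr.2
      simp only [mem_preimage, mem_Iic] at this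
      rw [← h1] at this
      linarith
  refine ⟨r, ⟨hpr, hr.1.2⟩, ?_, hlt⟩
  refine le_antisymm hr.2 ?_
  have hcr : ContinuousWithinAt h (Ioo p r) r :=
    (hc r hr.1).mono (fun x hx => ⟨hx.1.le, hx.2.le.trans hr.1.2⟩)
  have hne : (𝓝[Ioo p r] r).NeBot := by
    rw [← mem_closure_iff_nhdsWithin_neBot, closure_Ioo hpr.ne]
    exact right_mem_Icc.2 hpr.le
  refine ge_of_tendsto hcr ?_
  filter_upwards [self_mem_nhdsWithin] with t ht
  exact (hlt t ⟨ht.1.le, ht.2⟩).le

lemma last_zero {h : ℝ → ℝ} {p q : ℝ} (hpq : p ≤ q) (hc : ContinuousOn h (Icc p q))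
    (hp : h p ≤ 0) (hq : 0 < h q) : ∃ r ∈ Ico p q, h r = 0 ∧ ∀ t ∈ Ioc r q, 0 < h t := by
  obtain ⟨r, hr, h0, hpos⟩ := first_zero (h := fun x => h (-x)) (p := -q) (q := -p)
    (by linarith) (hc.comp continuousOn_neg (fun x hx => ⟨by linarith [hx.2], by linarith [hx.1]⟩))
    (by simpa using hq) (by simpa using hp)
  refine ⟨-r, ⟨by linarith [hr.2], by linarith [hr.1]⟩, h0, fun t ht => ?_⟩
  have := hpos (-t) ⟨by linarith [ht.2], by linarith [ht.1]⟩
  simpa using this

variable {T : ℝ} {V : Set ℝ} {f : ℝ → ℝ → ℝ} {K : ℝ≥0}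

lemma IsClosedSol.cont {s : ℝ} {φ : ℝ → ℝ} (h : IsClosedSol T V f s φ) :
    ContinuousOn φ (Icc 0 T) := fun t ht => (h.deriv t ht).continuousWithinAt

/-- closed solutions are ordered -/
theorem ordered (hK : ∀ t ∈ Icc 0 T, LipschitzOnWith K (f t) V) {s s' : ℝ}
    {φ ψ : ℝ → ℝ} (hφ : IsClosedSol T V f s φ) (hψ : IsClosedSol T V f s' ψ)
    (h0 : φ 0 < ψ 0) : ∀ t ∈ Icc 0 T, φ t < ψ t := by
  intro t ht
  by_contra hcon
  push Not at hcon
  set h : ℝ → ℝ := fun x => ψ x - φ x with hh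
  have hc : ContinuousOn h (Icc 0 T) := hψ.cont.sub hφ.cont
  have hT : 0 < h T := by
    simp only [hh]; rw [← hψ.closed, ← hφ.closed]; linarith
  obtain ⟨r, hr, hr0, hrp⟩ := first_zero (h := h) ht.1 (hc.mono (Icc_subset_Icc_right ht.2))
    (by simp only [hh]; linarith) (by simp only [hh]; linarith)
  obtain ⟨q, hq, hq0, hqp⟩ := last_zero (h := h) ht.2 (hc.mono (Icc_subset_Icc_left ht.1))
    (by simp only [hh]; linarith) hT
  have hrm : r ∈ Icc 0 T := ⟨hr.1.le, hr.2.trans ht.2⟩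
  have hqm : q ∈ Icc 0 T := ⟨ht.1.trans hq.1, hq.2.le⟩
  have er : φ r = ψ r := by simp only [hh] at hr0; linarith
  have eq : φ q = ψ q := by simp only [hh] at hq0; linarith
  have d1 : HasDerivWithinAt h (s' - s) (Icc 0 r) r := by
    have := ((hψ.deriv r hrm).sub (hφ.deriv r hrm)).mono (Icc_subset_Icc_right hrm.2)
    rw [er, show f r (ψ r) + s' - (f r (ψ r) + s) = s' - s by ring] at this
    exact this
  have d2 : HasDerivWithinAt h (s' - s) (Icc q T) q := by
    have := ((hψ.deriv q hqm).sub (hφ.deriv q hqm)).mono (Icc_subset_Icc_left hqm.1)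
    rw [eq, show f q (ψ q) + s' - (f q (ψ q) + s) = s' - s by ring] at this
    exact this
  have i1 := deriv_nonpos_left hr.1 d1 (fun x hx => by rw [hr0]; exact (hrp x hx).le)
  have i2 := deriv_nonneg_right hq.2 d2 (fun x hx => by rw [hq0]; exact (hqp x hx).le)
  have es : s' = s := by linarith
  subst es
  have hu : EqOn φ ψ (Icc 0 r) := by
    refine ODE_solution_unique_of_mem_Icc_left (v := fun t x => f t x + s')
      (s := fun _ => V) (K := K) ?_ ?_ ?_ ?_ ?_ ?_ ?_ er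
    · intro x hx
      have h1 := hK x ⟨hx.1.le, hx.2.trans hrm.2⟩
      intro a ha b hb
      have := h1 ha hb
      simpa [edist_add_right] using this
    · exact hφ.cont.mono (Icc_subset_Icc_right hrm.2)
    · intro x hx
      have hx' : x ∈ Icc 0 T := ⟨hx.1.le, hx.2.trans hrm.2⟩
      refine (hφ.deriv x hx').mono_of_mem_nhdsWithin ?_
      have : Icc 0 x ⊆ Icc 0 T := Icc_subset_Icc_right hx'.2
      exact mem_of_superset (Icc_mem_nhdsLE hx.1) this
    · intro x hx
      exact hφ.mem x ⟨hx.1.le, hx.2.trans hrm.2⟩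
    · exact hψ.cont.mono (Icc_subset_Icc_right hrm.2)
    · intro x hx
      have hx' : x ∈ Icc 0 T := ⟨hx.1.le, hx.2.trans hrm.2⟩
      refine (hψ.deriv x hx').mono_of_mem_nhdsWithin ?_
      have : Icc 0 x ⊆ Icc 0 T := Icc_subset_Icc_right hx'.2
      exact mem_of_superset (Icc_mem_nhdsLE hx.1) this
    · intro x hx
      exact hψ.mem x ⟨hx.1.le, hx.2.trans hrm.2⟩
  have := hu (left_mem_Icc.2 hrm.1)
  linarith

lemma not_lt_of_eq (hT : 0 < T) {s s' : ℝ}
    {φ ψ : ℝ → ℝ} (hφ : IsClosedSol T V f s φ) (hψ : IsClosedSol T V f s' ψ)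
    (h0 : φ 0 = ψ 0) : ¬ s < s' := by
  intro hs
  set h : ℝ → ℝ := fun x => ψ x - φ x with hh
  have hc : ContinuousOn h (Icc 0 T) := hψ.cont.sub hφ.cont
  have hTT : h T = 0 := by
    simp only [hh]; rw [← hψ.closed, ← hφ.closed]; linarith
  have h00 : h 0 = 0 := by simp only [hh]; linarith
  have hd : ∀ r ∈ Icc 0 T, h r = 0 → HasDerivWithinAt h (s' - s) (Icc 0 T) r := by
    intro r hr hr0
    have er : φ r = ψ r := by simp only [hh] at hr0; linarith
    have := ((hψ.deriv r hr).sub (hφ.deriv r hr))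
    rw [er, show f r (ψ r) + s' - (f r (ψ r) + s) = s' - s by ring] at this
    exact this
  -- `h` is positive somewhere
  have hpos : ∃ x ∈ Icc 0 T, 0 < h x := by
    by_contra hcon
    push Not at hcon
    have d0 := hd 0 (left_mem_Icc.2 hT.le) h00
    have := deriv_nonneg_right (h := fun x => - h x) hT d0.neg
      (fun x hx => by
        have := hcon x ⟨hx.1.le, hx.2⟩
        rw [h00]; linarith)
    linarith
  obtain ⟨x, hx, hxp⟩ := hpos
  obtain ⟨r, hr, hr0, hrp⟩ := first_zero (h := h) hx.2 (hc.mono (Icc_subset_Icc_left hx.1))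
    hxp hTT.le
  have hrm : r ∈ Icc 0 T := ⟨hx.1.trans hr.1.le, hr.2⟩
  have d1 := (hd r hrm hr0).mono (show Icc x r ⊆ Icc 0 T from Icc_subset_Icc hx.1 hr.2)
  have i1 := deriv_nonpos_left hr.1 d1 (fun y hy => by rw [hr0]; exact (hrp y hy).le)
  linarith

theorem eq_param (hT : 0 < T) {s s' : ℝ}
    {φ ψ : ℝ → ℝ} (hφ : IsClosedSol T V f s φ) (hψ : IsClosedSol T V f s' ψ)
    (h0 : φ 0 = ψ 0) : s = s' := by
  rcases lt_trichotomy s s' with h | h | h
  · exact absurd h (not_lt_of_eq hT hφ hψ h0)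
  · exact h
  · exact absurd h (not_lt_of_eq hT hψ hφ h0.symm)

theorem eq_sol (hK : ∀ t ∈ Icc 0 T, LipschitzOnWith K (f t) V) (hT : 0 < T) {s s' : ℝ}
    {φ ψ : ℝ → ℝ} (hφ : IsClosedSol T V f s φ) (hψ : IsClosedSol T V f s' ψ)
    (h0 : φ 0 = ψ 0) : EqOn φ ψ (Icc 0 T) := by
  have es := eq_param hT hφ hψ h0
  subst es
  refine ODE_solution_unique_of_mem_Icc_right (v := fun t x => f t x + s)
      (s := fun _ => V) (K := K) ?_ hφ.cont ?_ ?_ hψ.cont ?_ ?_ h0
  · intro x hx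
    have h1 := hK x ⟨hx.1, hx.2.le⟩
    intro a ha b hb
    have := h1 ha hb
    simpa [edist_add_right] using this
  · intro x hx
    have hx' : x ∈ Icc 0 T := ⟨hx.1, hx.2.le⟩
    refine (hφ.deriv x hx').mono_of_mem_nhdsWithin ?_
    have : Icc x T ⊆ Icc 0 T := Icc_subset_Icc_left hx'.1
    exact mem_of_superset (Icc_mem_nhdsGE hx.2) this
  · intro x hx
    exact hφ.mem x ⟨hx.1, hx.2.le⟩
  · intro x hx
    have hx' : x ∈ Icc 0 T := ⟨hx.1, hx.2.le⟩
    refine (hψ.deriv x hx').mono_of_mem_nhdsWithin ?_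
    have : Icc x T ⊆ Icc 0 T := Icc_subset_Icc_left hx'.1
    exact mem_of_superset (Icc_mem_nhdsGE hx.2) this
  · intro x hx
    exact hψ.mem x ⟨hx.1, hx.2.le⟩

/-- the parameter is minus the mean of `f` along a closed solution -/
theorem mean_formula (hT : 0 < T) (hf : Continuous (Function.uncurry f)) {s : ℝ}
    {φ : ℝ → ℝ} (hφ : IsClosedSol T V f s φ) :
    T * s = - ∫ t in (0:ℝ)..T, f t (φ t) := by
  have hfc : ContinuousOn (fun t => f t (φ t)) (Icc 0 T) := by
    have : ContinuousOn (fun t => ((t, φ t) : ℝ × ℝ)) (Icc 0 T) :=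
      continuousOn_id.prodMk hφ.cont
    exact hf.comp_continuousOn this
  have hi : IntervalIntegrable (fun t => f t (φ t)) volume 0 T :=
    (hfc.mono (by rw [uIcc_of_le hT.le])).intervalIntegrable
  have h1 := intervalIntegral.integral_eq_sub_of_hasDerivAt_of_le hT.le hφ.cont
    (f' := fun t => f t (φ t) + s)
    (fun x hx => (hφ.deriv x (Ioo_subset_Icc_self hx)).hasDerivAt (Icc_mem_nhds hx.1 hx.2))
    (hi.add intervalIntegrable_const)
  rw [intervalIntegral.integral_add hi intervalIntegrable_const, intervalIntegral.integral_const,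
    ← hφ.closed] at h1
  simp only [sub_zero, smul_eq_mul, sub_self] at h1
  linarith

end Pool.Agent.TH525.PU
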