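import Mathlib
import Pool.Agent.TH525.PU.Ord

/-! The number of closed solutions of `x' = f(t,x) + s` is bounded on average over `s`. -/

open Set MeasureTheory Topology Filter
open scoped ENNReal NNReal

namespace Pool.Agent.TH525.PU

variable {T : ℝ} {V : Set ℝ} {f : ℝ → ℝ → ℝ} {K : ℝ≥0}

lemma IsClosedSol.contf (hf : Continuous (Function.uncurry f)) {s : ℝ} {φ : ℝ → ℝ}
    (hφ : IsClosedSol T V f s φ) : ContinuousOn (fun t => f t (φ t)) (Icc 0 T) := by
  have : ContinuousOn (fun t => ((t, φ t) : ℝ × ℝ)) (Icc 0 T) :=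
    continuousOn_id.prodMk hφ.cont
  exact hf.comp_continuousOn this

lemma edist_param (hT : 0 < T) (hf : Continuous (Function.uncurry f)) {s s' : ℝ}
    {φ ψ : ℝ → ℝ} (hφ : IsClosedSol T V f s φ) (hψ : IsClosedSol T V f s' ψ) :
    edist s s' ≤ ENNReal.ofReal (1 / T) *
      ∫⁻ t in Icc 0 T, edist (f t (φ t)) (f t (ψ t)) := by
  have h1 := mean_formula hT hf hφ
  have h2 := mean_formula hT hf hψ
  have i1 : IntervalIntegrable (fun t => f t (φ t)) volume 0 T :=
    ((hφ.contf hf).mono (by rw [uIcc_of_le hT.le])).intervalIntegrable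
  have i2 : IntervalIntegrable (fun t => f t (ψ t)) volume 0 T :=
    ((hψ.contf hf).mono (by rw [uIcc_of_le hT.le])).intervalIntegrable
  have h3 : T * (s - s') = - ∫ t in (0:ℝ)..T, (f t (φ t) - f t (ψ t)) := by
    rw [intervalIntegral.integral_sub i1 i2]
    linarith
  have h4 : ‖T * (s - s')‖ₑ ≤ ∫⁻ t in Icc 0 T, edist (f t (φ t)) (f t (ψ t)) := by
    rw [h3, enorm_neg, intervalIntegral.integral_of_le hT.le]
    refine (enorm_integral_le_lintegral_enorm _).trans ?_
    refine (lintegral_mono_set Ioc_subset_Icc_self).trans (le_of_eq ?_)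
    simp only [edist_eq_enorm_sub]
  rw [enorm_mul, ← edist_eq_enorm_sub] at h4
  have h5 : ‖T‖ₑ = ENNReal.ofReal T := by
    rw [Real.enorm_eq_ofReal hT.le]
  rw [h5] at h4
  calc edist s s' = ENNReal.ofReal (1 / T) * (ENNReal.ofReal T * edist s s') := by
        rw [← mul_assoc, ← ENNReal.ofReal_mul (by positivity), one_div, inv_mul_cancel₀ hT.ne']
        simp
    _ ≤ _ := by gcongr

/-- **Theorem A.** -/
theorem mainA (hT : 0 < T) (hf : Continuous (Function.uncurry f))
    (hK : ∀ t ∈ Icc 0 T, LipschitzOnWith K (f t) V) :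
    ∃ g : ℝ → ℝ≥0∞, Measurable g ∧ (∀ s, ((closedSols T V f s).encard : ℝ≥0∞) ≤ g s) ∧
      ∫⁻ s, g s ≤ ENNReal.ofReal (1 / T) * ∫⁻ t in Icc 0 T, eVariationOn (f t) V := by
  classical
  set E : Set ℝ := {x | ∃ s φ, IsClosedSol T V f s φ ∧ φ 0 = x} with hE
  have hex : ∀ x, ∃ p : ℝ × (ℝ → ℝ), x ∈ E → IsClosedSol T V f p.1 p.2 ∧ p.2 0 = x := by
    intro x
    by_cases hx : x ∈ E
    · obtain ⟨s, φ, h1, h2⟩ := hx
      exact ⟨(s, φ), fun _ => ⟨h1, h2⟩⟩
    · exact ⟨(0, fun _ => 0), fun h => absurd h hx⟩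
  choose P hP using hex
  obtain ⟨g, hgm, hg, hgi⟩ := majorant (fun x => (P x).1) E
  refine ⟨g, hgm, fun s => ?_, hgi.trans ?_⟩
  · refine le_trans ?_ (hg s)
    refine ENat.toENNReal_le.2 ?_
    by_cases h0 : (0:ℝ) ∈ Icc 0 T
    · refine Set.encard_le_encard_of_injOn (f := fun h : Icc 0 T → ℝ => h ⟨0, h0⟩) ?_ ?_
      · rintro _ ⟨φ, hφ, rfl⟩
        have hx : φ 0 ∈ E := ⟨s, φ, hφ, rfl⟩
        refine ⟨hx, ?_⟩
        have := hP (φ 0) hx
        exact eq_param hT this.1 hφ this.2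
      · rintro _ ⟨φ, hφ, rfl⟩ _ ⟨ψ, hψ, rfl⟩ he
        ext x
        exact eq_sol hK hT hφ hψ he x.2
    · exact absurd (left_mem_Icc.2 hT.le) h0
  · refine iSup_le ?_
    rintro ⟨n, u, hu, us⟩
    simp only
    have hs : ∀ i, IsClosedSol T V f (P (u i)).1 (P (u i)).2 ∧ (P (u i)).2 0 = u i :=
      fun i => hP (u i) (us i)
    have haem : ∀ i, AEMeasurable
        (fun t => edist (f t ((P (u (i+1))).2 t)) (f t ((P (u i)).2 t)))
        (volume.restrict (Icc 0 T)) := by
      intro i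
      have h1 := (hs (i+1)).1.contf hf
      have h2 := (hs i).1.contf hf
      exact (continuous_edist.comp_continuousOn (h1.prodMk h2)).aemeasurable measurableSet_Icc
    calc ∑ i ∈ Finset.range n, edist (P (u (i+1))).1 (P (u i)).1
        ≤ ∑ i ∈ Finset.range n, ENNReal.ofReal (1 / T) *
          ∫⁻ t in Icc 0 T, edist (f t ((P (u (i+1))).2 t)) (f t ((P (u i)).2 t)) :=
          Finset.sum_le_sum fun i _ => edist_param hT hf (hs (i+1)).1 (hs i).1
      _ = ENNReal.ofReal (1 / T) * ∫⁻ t in Icc 0 T, ∑ i ∈ Finset.range n,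
          edist (f t ((P (u (i+1))).2 t)) (f t ((P (u i)).2 t)) := by
          rw [← Finset.mul_sum, lintegral_finsetSum' _ (fun i _ => haem i)]
      _ ≤ _ := by
          refine mul_le_mul_right ?_ _
          refine setLIntegral_mono_ae' measurableSet_Icc (ae_of_all _ fun t ht => ?_)
          refine eVariationOn.sum_le (f := f t) (s := V) (u := fun i => (P (u i)).2 t) ?_ ?_
          · refine monotone_nat_of_le_succ fun i => ?_
            rcases (hu (Nat.le_succ i)).eq_or_lt with h | h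
            · rw [h]
            · exact (ordered hK (hs i).1 (hs (i+1)).1 (by rw [(hs i).2, (hs (i+1)).2]; exact h)
                t ht).le
          · intro i
            exact (hs i).1.mem t ht

end Pool.Agent.TH525.PU
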