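import Mathlib

/-! The variation of a polynomial. -/

open Set MeasureTheory Topology Filter Polynomial
open scoped ENNReal NNReal

namespace Pool.Agent.TH525.PU

open Classical in
lemma poly_var_aux (p : ℝ[X]) (hp : derivative p ≠ 0) (m M : ℝ) : ∀ (k : ℕ) (a b : ℝ), a ≤ b →
    ((derivative p).roots.toFinset.filter (fun x => a < x ∧ x < b)).card ≤ k →
    (∀ x ∈ Icc a b, m ≤ p.eval x ∧ p.eval x ≤ M) →
    eVariationOn (fun x => p.eval x) (Icc a b) ≤ (k + 1) * ENNReal.ofReal (M - m) := by
  intro k
  induction k using Nat.strong_induction_on with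
  | _ k ih =>
  intro a b hab hcard hmM
  by_cases hex : ∃ c ∈ (derivative p).roots.toFinset, a < c ∧ c < b
  · obtain ⟨c, hc, hac, hcb⟩ := hex
    set R := (derivative p).roots.toFinset with hR
    set k1 := (R.filter (fun x => a < x ∧ x < c)).card with hk1
    set k2 := (R.filter (fun x => c < x ∧ x < b)).card with hk2
    have hsum : k1 + k2 + 1 ≤ k := by
      refine le_trans ?_ hcard
      have hd : Disjoint (R.filter (fun x => a < x ∧ x < c)) (R.filter (fun x => c < x ∧ x < b)) := by
        rw [Finset.disjoint_left]
        intro x hx hx'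
        have := (Finset.mem_filter.1 hx).2
        have := (Finset.mem_filter.1 hx').2
        linarith
      rw [hk1, hk2, ← Finset.card_union_of_disjoint hd]
      have hn : c ∉ (R.filter (fun x => a < x ∧ x < c)) ∪ (R.filter (fun x => c < x ∧ x < b)) := by
        simp
      rw [← Finset.card_insert_of_notMem hn]
      refine Finset.card_le_card ?_
      intro x hx
      rcases Finset.mem_insert.1 hx with rfl | hx
      · exact Finset.mem_filter.2 ⟨hc, hac, hcb⟩
      · rcases Finset.mem_union.1 hx with hx | hx
        · have := Finset.mem_filter.1 hx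
          exact Finset.mem_filter.2 ⟨this.1, this.2.1, this.2.2.trans hcb⟩
        · have := Finset.mem_filter.1 hx
          exact Finset.mem_filter.2 ⟨this.1, hac.trans this.2.1, this.2.2⟩
    have h1 := ih k1 (by omega) a c hac.le le_rfl
      (fun x hx => hmM x ⟨hx.1, hx.2.trans hcb.le⟩)
    have h2 := ih k2 (by omega) c b hcb.le le_rfl
      (fun x hx => hmM x ⟨hac.le.trans hx.1, hx.2⟩)
    have h3 := eVariationOn.Icc_add_Icc (fun x => p.eval x) (s := univ) hac.le hcb.le (mem_univ c)
    simp only [univ_inter] at h3
    rw [← h3]
    calc _ ≤ ((k1:ℝ≥0∞) + 1) * ENNReal.ofReal (M - m) + ((k2:ℝ≥0∞) + 1) * ENNReal.ofReal (M - m) :=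
          add_le_add h1 h2
      _ = ((k1 + k2 + 1 + 1 : ℕ) : ℝ≥0∞) * ENNReal.ofReal (M - m) := by push_cast; ring
      _ ≤ _ := by
          gcongr
          exact_mod_cast Nat.add_le_add_right hsum 1
  · push Not at hex
    have hinj : InjOn (fun x => p.eval x) (Icc a b) := by
      have key : ∀ x ∈ Icc a b, ∀ y ∈ Icc a b, x < y → p.eval x ≠ p.eval y := by
        intro x hx y hy hxy he
        obtain ⟨c, hc, hc0⟩ := exists_deriv_eq_zero hxy (f := fun x => p.eval x)
          p.continuous.continuousOn he
        have h4 : c ∈ (derivative p).roots.toFinset := by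
          rw [Multiset.mem_toFinset, mem_roots hp]
          simpa using hc0
        have := hex c h4 (hx.1.trans_lt hc.1)
        linarith [hc.2, hy.2]
      intro x hx y hy he
      rcases lt_trichotomy x y with h | h | h
      · exact absurd he (key x hx y hy h)
      · exact h
      · exact absurd he.symm (key y hy x hx h)
    have hvar : eVariationOn (fun x => p.eval x) (Icc a b) ≤ ENNReal.ofReal (M - m) := by
      rcases ContinuousOn.strictMonoOn_of_injOn_Icc' hab p.continuous.continuousOn hinj with h | h
      · have := h.monotoneOn.eVariationOn_le (left_mem_Icc.2 hab) (right_mem_Icc.2 hab)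
        rw [inter_self] at this
        refine this.trans (ENNReal.ofReal_le_ofReal ?_)
        have h1 := hmM a (left_mem_Icc.2 hab)
        have h2 := hmM b (right_mem_Icc.2 hab)
        linarith
      · have hneg : MonotoneOn (fun x => - p.eval x) (Icc a b) := h.antitoneOn.neg
        have := hneg.eVariationOn_le (left_mem_Icc.2 hab) (right_mem_Icc.2 hab)
        rw [inter_self] at this
        have he : eVariationOn (fun x => - p.eval x) (Icc a b) =
            eVariationOn (fun x => p.eval x) (Icc a b) := by
          unfold eVariationOn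
          simp only [edist_neg_neg]
        rw [he] at this
        refine this.trans (ENNReal.ofReal_le_ofReal ?_)
        have h1 := hmM a (left_mem_Icc.2 hab)
        have h2 := hmM b (right_mem_Icc.2 hab)
        linarith
    refine hvar.trans ?_
    calc ENNReal.ofReal (M - m) = 1 * ENNReal.ofReal (M - m) := (one_mul _).symm
      _ ≤ _ := by gcongr; exact le_add_self

/-- The variation of a polynomial of degree at most `n` on an interval is at most `n` times its
oscillation. -/
theorem poly_var (p : ℝ[X]) {n : ℕ} (hn : p.natDegree ≤ n) {a b m M : ℝ}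
    (hmM : ∀ x ∈ Icc a b, m ≤ p.eval x ∧ p.eval x ≤ M) :
    eVariationOn (fun x => p.eval x) (Icc a b) ≤ n * ENNReal.ofReal (M - m) := by
  classical
  rcases lt_or_ge b a with hba | hab
  · rw [Icc_eq_empty (not_le.2 hba), eVariationOn.subsingleton _ subsingleton_empty]
    exact zero_le
  by_cases hp : derivative p = 0
  · have h1 := natDegree_eq_zero_of_derivative_eq_zero hp
    rw [eq_C_of_natDegree_eq_zero h1]
    have : eVariationOn (fun x : ℝ => (C (p.coeff 0)).eval x) (Icc a b) = 0 := by
      unfold eVariationOn
      simp
    rw [this]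
    exact zero_le
  · have h1 : (derivative p).natDegree < p.natDegree := by
      apply natDegree_derivative_lt
      intro h0
      apply hp
      rw [eq_C_of_natDegree_eq_zero h0, derivative_C]
    have h2 : ((derivative p).roots.toFinset.filter (fun x => a < x ∧ x < b)).card ≤ n - 1 := by
      refine (Finset.card_filter_le _ _).trans ((Multiset.toFinset_card_le _).trans ?_)
      exact (card_roots' _).trans (by omega)
    have h3 := poly_var_aux p hp m M (n - 1) a b hab h2 hmM
    refine h3.trans (le_of_eq ?_)
    congr 1
    have : n - 1 + 1 = n := by omega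
    exact_mod_cast this

end Pool.Agent.TH525.PU
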