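import Mathlib
import Pool.Agent.TH525.PU.Mean
import Pool.Agent.TH525.PU.Poly

/-! The averaged form of Pugh's problem: equations `x' = c_n(t) x^n + ... + c_0(t) + s`. -/

open Set MeasureTheory Topology Filter Polynomial
open scoped ENNReal NNReal

namespace Pool.Agent.TH525.PU

/-- The right hand side `c_n(t) x^n + ... + c_1(t) x + c_0(t)`. -/
def field (n : ℕ) (c : ℕ → ℝ → ℝ) (t x : ℝ) : ℝ := ∑ j ∈ Finset.range (n + 1), c j t * x ^ j

/-- The mean over `t ∈ [0,T]` of `- max_{a ≤ x ≤ b} f(t,x)`. -/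
noncomputable def lo (T a b : ℝ) (f : ℝ → ℝ → ℝ) : ℝ :=
  (1 / T) * ∫ t in (0:ℝ)..T, - sSup (f t '' Icc a b)

/-- The mean over `t ∈ [0,T]` of `- min_{a ≤ x ≤ b} f(t,x)`. -/
noncomputable def hi (T a b : ℝ) (f : ℝ → ℝ → ℝ) : ℝ :=
  (1 / T) * ∫ t in (0:ℝ)..T, - sInf (f t '' Icc a b)

variable {n : ℕ} {c : ℕ → ℝ → ℝ} {T a b : ℝ}

lemma field_cont (hc : ∀ j, Continuous (c j)) : Continuous (Function.uncurry (field n c)) := by
  unfold field Function.uncurry
  refine continuous_finsetSum _ fun j _ => ?_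
  exact ((hc j).comp continuous_fst).mul (continuous_snd.pow j)

lemma field_lip (hc : ∀ j, Continuous (c j)) (T a b : ℝ) :
    ∃ K : ℝ≥0, ∀ t ∈ Icc 0 T, LipschitzOnWith K (field n c t) (Icc a b) := by
  have h1 : ∀ j, ∃ B : ℝ≥0, ∀ t ∈ Icc 0 T, |c j t| ≤ B := by
    intro j
    obtain ⟨B, hB⟩ := (isCompact_Icc (a := (0:ℝ)) (b := T)).exists_bound_of_continuousOn
      (hc j).continuousOn
    refine ⟨B.toNNReal, fun t ht => (hB t ht).trans (Real.le_coe_toNNReal B)⟩
  choose B hB using h1
  have h2 : ∀ j : ℕ, ∃ L : ℝ≥0, LipschitzOnWith L (fun x : ℝ => x ^ j) (Icc a b) := by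
    intro j
    exact ContDiffOn.exists_lipschitzOnWith (n := 1) (contDiff_id.pow j).contDiffOn (by simp)
      (convex_Icc a b) isCompact_Icc
  choose L hL using h2
  refine ⟨∑ j ∈ Finset.range (n + 1), B j * L j, fun t ht => ?_⟩
  rw [lipschitzOnWith_iff_dist_le_mul]
  intro x hx y hy
  have h3 : field n c t x - field n c t y =
      ∑ j ∈ Finset.range (n + 1), c j t * (x ^ j - y ^ j) := by
    unfold field
    rw [← Finset.sum_sub_distrib]
    exact Finset.sum_congr rfl fun j _ => by ring
  rw [Real.dist_eq, h3]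
  push_cast
  rw [Finset.sum_mul]
  refine (Finset.abs_sum_le_sum_abs _ _).trans (Finset.sum_le_sum fun j _ => ?_)
  rw [abs_mul, mul_assoc]
  have h4 := (hL j).dist_le_mul x hx y hy
  simp only [Real.dist_eq] at h4
  exact mul_le_mul (hB j t ht) (by rw [Real.dist_eq]; exact h4) (abs_nonneg _) (B j).2

/-- the polynomial in `x` -/
noncomputable def fpoly (n : ℕ) (c : ℕ → ℝ → ℝ) (t : ℝ) : ℝ[X] :=
  ∑ j ∈ Finset.range (n + 1), C (c j t) * X ^ j

lemma fpoly_eval (t x : ℝ) : (fpoly n c t).eval x = field n c t x := by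
  simp [fpoly, field, eval_finsetSum]

lemma fpoly_deg (t : ℝ) : (fpoly n c t).natDegree ≤ n := by
  unfold fpoly
  refine natDegree_sum_le_of_forall_le _ _ fun j hj => ?_
  exact (natDegree_C_mul_X_pow_le _ _).trans (by have := Finset.mem_range.1 hj; omega)

lemma field_le_sSup (hc : ∀ j, Continuous (c j)) {t x : ℝ} (hx : x ∈ Icc a b) :
    field n c t x ≤ sSup (field n c t '' Icc a b) := by
  refine le_csSup ?_ (mem_image_of_mem _ hx)
  have : ContinuousOn (field n c t) (Icc a b) :=
    ((field_cont hc).comp (continuous_const.prodMk continuous_id)).continuousOn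
  exact (isCompact_Icc.image_of_continuousOn this).bddAbove

lemma sInf_le_field (hc : ∀ j, Continuous (c j)) {t x : ℝ} (hx : x ∈ Icc a b) :
    sInf (field n c t '' Icc a b) ≤ field n c t x := by
  refine csInf_le ?_ (mem_image_of_mem _ hx)
  have : ContinuousOn (field n c t) (Icc a b) :=
    ((field_cont hc).comp (continuous_const.prodMk continuous_id)).continuousOn
  exact (isCompact_Icc.image_of_continuousOn this).bddBelow

lemma sSup_cont (hc : ∀ j, Continuous (c j)) (a b : ℝ) :
    Continuous fun t => sSup (field n c t '' Icc a b) :=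
  isCompact_Icc.continuous_sSup (field_cont hc)

lemma sInf_cont (hc : ∀ j, Continuous (c j)) (a b : ℝ) :
    Continuous fun t => sInf (field n c t '' Icc a b) :=
  isCompact_Icc.continuous_sInf (field_cont hc)

theorem pugh_empty (hc : ∀ j, Continuous (c j)) (hT : 0 < T) {s : ℝ}
    (hs : s ∉ Icc (lo T a b (field n c)) (hi T a b (field n c))) :
    closedSols T (Icc a b) (field n c) s = ∅ := by
  by_contra hne
  obtain ⟨_, φ, hφ, -⟩ := Set.nonempty_iff_ne_empty.2 hne
  apply hs
  have h1 := mean_formula hT (field_cont hc) hφ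
  have i0 : IntervalIntegrable (fun t => field n c t (φ t)) volume 0 T :=
    ((hφ.contf (field_cont hc)).mono (by rw [uIcc_of_le hT.le])).intervalIntegrable
  have h2 : s = (1 / T) * ∫ t in (0:ℝ)..T, - field n c t (φ t) := by
    rw [intervalIntegral.integral_neg, ← h1]
    field_simp
  constructor
  · rw [h2, lo]
    refine mul_le_mul_of_nonneg_left ?_ (by positivity)
    refine intervalIntegral.integral_mono_on hT.le ((sSup_cont hc a b).neg.intervalIntegrable _ _) i0.neg ?_
    intro t ht
    exact neg_le_neg (field_le_sSup hc (hφ.mem t ht))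
  · rw [h2, hi]
    refine mul_le_mul_of_nonneg_left ?_ (by positivity)
    refine intervalIntegral.integral_mono_on hT.le i0.neg ((sInf_cont hc a b).neg.intervalIntegrable _ _) ?_
    intro t ht
    exact neg_le_neg (sInf_le_field hc (hφ.mem t ht))

theorem pugh_mean (hc : ∀ j, Continuous (c j)) (hT : 0 < T) (hab : a ≤ b) :
    ∃ g : ℝ → ℝ≥0∞, Measurable g ∧
      (∀ s, ((closedSols T (Icc a b) (field n c) s).encard : ℝ≥0∞) ≤ g s) ∧
      ∫⁻ s, g s ≤ n * ENNReal.ofReal (hi T a b (field n c) - lo T a b (field n c)) := by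
  obtain ⟨K, hK⟩ := field_lip (n := n) hc T a b
  obtain ⟨g, hgm, hg, hgi⟩ := mainA hT (field_cont hc) hK
  refine ⟨g, hgm, hg, hgi.trans ?_⟩
  set D : ℝ → ℝ := fun t => sSup (field n c t '' Icc a b) - sInf (field n c t '' Icc a b) with hD
  have hDc : Continuous D := (sSup_cont hc a b).sub (sInf_cont hc a b)
  have hD0 : ∀ t, 0 ≤ D t := by
    intro t
    have h1 := field_le_sSup (n := n) hc (t := t) (left_mem_Icc.2 hab)
    have h2 := sInf_le_field (n := n) hc (t := t) (left_mem_Icc.2 hab)
    simp only [hD]; linarith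
  have hv : ∀ t, eVariationOn (field n c t) (Icc a b) ≤ n * ENNReal.ofReal (D t) := by
    intro t
    have h1 := poly_var (fpoly n c t) (fpoly_deg t) (a := a) (b := b)
      (m := sInf (field n c t '' Icc a b)) (M := sSup (field n c t '' Icc a b))
      (fun x hx => by
        rw [fpoly_eval]
        exact ⟨sInf_le_field hc hx, field_le_sSup hc hx⟩)
    simpa only [fpoly_eval] using h1
  have e1 : hi T a b (field n c) - lo T a b (field n c) = (1 / T) * ∫ t in (0:ℝ)..T, D t := by
    rw [hi, lo, ← mul_sub, intervalIntegral.integral_neg, intervalIntegral.integral_neg,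
      show D = fun t => sSup (field n c t '' Icc a b) - sInf (field n c t '' Icc a b) from rfl,
      intervalIntegral.integral_sub ((sSup_cont hc a b).intervalIntegrable _ _)
      ((sInf_cont hc a b).intervalIntegrable _ _)]
    ring
  rw [e1]
  calc ENNReal.ofReal (1 / T) * ∫⁻ t in Icc 0 T, eVariationOn (field n c t) (Icc a b)
      ≤ ENNReal.ofReal (1 / T) * ∫⁻ t in Icc 0 T, n * ENNReal.ofReal (D t) := by
        gcongr with t
        exact hv t
    _ = ENNReal.ofReal (1 / T) * (n * ∫⁻ t in Icc 0 T, ENNReal.ofReal (D t)) := by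
        rw [lintegral_const_mul _ (hDc.measurable.ennreal_ofReal)]
    _ = n * ENNReal.ofReal ((1 / T) * ∫ t in (0:ℝ)..T, D t) := by
        rw [ENNReal.ofReal_mul (by positivity), intervalIntegral.integral_of_le hT.le,
          ← integral_Icc_eq_integral_Ioc, ofReal_integral_eq_lintegral_ofReal
          (hDc.continuousOn.integrableOn_compact isCompact_Icc) (ae_of_all _ hD0)]
        ring

end Pool.Agent.TH525.PU
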