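import Mathlib
import Pool.Agent.TH525.PU.Pugh

/-! Sharpness: Chebyshev polynomials. -/

open Set MeasureTheory Topology Filter Polynomial
open scoped ENNReal NNReal

namespace Pool.Agent.TH525.PU

/-- the angles at which `cos (n θ) = y` -/
noncomputable def ang (n : ℕ) (y : ℝ) (k : ℕ) : ℝ :=
  (k * Real.pi + Real.arccos ((-1) ^ k * y)) / n

lemma ang_mem {n : ℕ} (hn : n ≠ 0) {y : ℝ} (hy : y ∈ Ioo (-1:ℝ) 1) (k : ℕ) :
    k * Real.pi / n < ang n y k ∧ ang n y k < (k + 1) * Real.pi / n := by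
  have hn' : (0:ℝ) < n := by positivity
  have h1 : (-1) ^ k * y ∈ Ioo (-1:ℝ) 1 := by
    rcases neg_one_pow_eq_or ℝ k with h | h
    · rw [h, one_mul]; exact hy
    · rw [h]; constructor <;> linarith [hy.1, hy.2]
  have h2 : 0 < Real.arccos ((-1) ^ k * y) := Real.arccos_pos.2 h1.2
  have h3 : Real.arccos ((-1) ^ k * y) < Real.pi := by
    refine lt_of_le_of_ne (Real.arccos_le_pi _) fun h => ?_
    rw [Real.arccos_eq_pi] at h
    linarith [h1.1]
  unfold ang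
  constructor
  · apply div_lt_div_of_pos_right _ hn'
    linarith
  · apply div_lt_div_of_pos_right _ hn'
    linarith

lemma ang_cos {n : ℕ} (hn : n ≠ 0) {y : ℝ} (hy : y ∈ Ioo (-1:ℝ) 1) (k : ℕ) :
    Real.cos (n * ang n y k) = y := by
  have hn' : (0:ℝ) < n := by positivity
  have h1 : (-1) ^ k * y ∈ Ioo (-1:ℝ) 1 := by
    rcases neg_one_pow_eq_or ℝ k with h | h
    · rw [h, one_mul]; exact hy
    · rw [h]; constructor <;> linarith [hy.1, hy.2]
  have h2 : (n:ℝ) * ang n y k = Real.arccos ((-1) ^ k * y) + k * Real.pi := by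
    unfold ang; field_simp; ring
  rw [h2, Real.cos_add_nat_mul_pi, Real.cos_arccos h1.1.le h1.2.le, ← mul_assoc, ← pow_add,
    Even.neg_one_pow ⟨k, rfl⟩, one_mul]

lemma ang_lt {n : ℕ} (hn : n ≠ 0) {y : ℝ} (hy : y ∈ Ioo (-1:ℝ) 1) {k l : ℕ} (hkl : k < l) :
    ang n y k < ang n y l := by
  have hn' : (0:ℝ) < n := by positivity
  refine (ang_mem hn hy k).2.trans (lt_of_le_of_lt ?_ (ang_mem hn hy l).1)
  apply div_le_div_of_nonneg_right _ hn'.le
  have : ((k:ℝ) + 1) ≤ l := by exact_mod_cast hkl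
  exact mul_le_mul_of_nonneg_right this Real.pi_pos.le

lemma ang_Ioo {n : ℕ} {y : ℝ} (hy : y ∈ Ioo (-1:ℝ) 1) {k : ℕ} (hk : k < n) :
    ang n y k ∈ Ioo 0 Real.pi := by
  have hn : n ≠ 0 := by omega
  have hn' : (0:ℝ) < n := by positivity
  obtain ⟨h1, h2⟩ := ang_mem hn hy k
  constructor
  · refine lt_of_le_of_lt ?_ h1
    have := Real.pi_pos
    positivity
  · refine h2.trans_le ?_
    rw [div_le_iff₀ hn']
    have : ((k:ℝ) + 1) ≤ n := by exact_mod_cast hk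
    nlinarith [Real.pi_pos]

/-- the points at which the Chebyshev polynomial takes the value `y` -/
noncomputable def pt (n : ℕ) (y : ℝ) (k : ℕ) : ℝ := Real.cos (ang n y k)

lemma pt_eval {n : ℕ} (hn : n ≠ 0) {y : ℝ} (hy : y ∈ Ioo (-1:ℝ) 1) (k : ℕ) :
    (Chebyshev.T ℝ n).eval (pt n y k) = y := by
  unfold pt
  rw [Chebyshev.T_real_cos]
  exact_mod_cast ang_cos hn hy k

lemma pt_inj {n : ℕ} {y : ℝ} (hy : y ∈ Ioo (-1:ℝ) 1) {k l : ℕ} (hk : k < n)
    (hl : l < n) (h : pt n y k = pt n y l) : k = l := by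
  have hn : n ≠ 0 := by omega
  have h1 := ang_Ioo hy hk
  have h2 := ang_Ioo hy hl
  have h3 := Real.injOn_cos ⟨h1.1.le, h1.2.le⟩ ⟨h2.1.le, h2.2.le⟩ h
  rcases lt_trichotomy k l with h | h | h
  · exact absurd h3 (ang_lt hn hy h).ne
  · exact h
  · exact absurd h3 (ang_lt hn hy h).ne'

lemma pt_Ioo {n : ℕ} {y : ℝ} (hy : y ∈ Ioo (-1:ℝ) 1) {k : ℕ} (hk : k < n) :
    pt n y k ∈ Ioo (-1:ℝ) 1 := by
  have h1 := ang_Ioo hy hk
  unfold pt
  constructor
  · rw [← Real.cos_pi]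
    exact Real.strictAntiOn_cos ⟨h1.1.le, h1.2.le⟩ ⟨Real.pi_pos.le, le_rfl⟩ h1.2
  · rw [← Real.cos_zero]
    exact Real.strictAntiOn_cos ⟨le_rfl, Real.pi_pos.le⟩ ⟨h1.1.le, h1.2.le⟩ h1.1

lemma encard_of_inj {α : Type*} {S : Set α} {n : ℕ} (F : ℕ → α) (h1 : ∀ k < n, F k ∈ S)
    (h2 : ∀ k < n, ∀ l < n, F k = F l → k = l) : (n : ℕ∞) ≤ S.encard := by
  have h3 : F '' (Iio n) ⊆ S := by
    rintro _ ⟨k, hk, rfl⟩; exact h1 k hk
  refine le_trans ?_ (encard_le_encard h3)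
  have h4 : InjOn F (Iio n) := fun k hk l hl h => h2 k hk l hl h
  rw [h4.encard_image, Set.encard_eq_coe_toFinset_card]
  simp

lemma cheb_field {n : ℕ} (t x : ℝ) :
    field n (fun j _ => (Chebyshev.T ℝ (n:ℤ)).coeff j) t x = (Chebyshev.T ℝ n).eval x := by
  rw [eval_eq_sum_range' (n := n + 1)]
  · rfl
  · rw [Chebyshev.natDegree_T]; simp

theorem cheb_range {n : ℕ} (hn : n ≠ 0) :
    (fun x => (Chebyshev.T ℝ (n:ℤ)).eval x) '' Icc (-1) 1 = Icc (-1:ℝ) 1 := by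
  apply Subset.antisymm
  · rintro _ ⟨x, hx, rfl⟩
    exact Chebyshev.eval_T_real_mem_Icc n hx
  · intro y hy
    refine ⟨Real.cos (Real.arccos y / n), ⟨Real.neg_one_le_cos _, Real.cos_le_one _⟩, ?_⟩
    have hn' : (n:ℝ) ≠ 0 := by positivity
    simp only
    rw [Chebyshev.T_real_cos]
    push_cast
    rw [mul_div_cancel₀ _ hn', Real.cos_arccos hy.1 hy.2]

theorem pugh_sharp {n : ℕ} (hn : 1 ≤ n) : ∃ c : ℕ → ℝ → ℝ, (∀ j, Continuous (c j)) ∧
    ∀ T : ℝ, 0 < T → lo T (-1) 1 (field n c) = -1 ∧ hi T (-1) 1 (field n c) = 1 ∧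
      ∀ s ∈ Ioo (-1:ℝ) 1, (n : ℕ∞) ≤ (closedSols T (Icc (-1) 1) (field n c) s).encard := by
  have hn0 : n ≠ 0 := by omega
  refine ⟨fun j _ => (Chebyshev.T ℝ (n:ℤ)).coeff j, fun j => continuous_const, fun T hT => ?_⟩
  have him : ∀ t, (field n (fun j _ => (Chebyshev.T ℝ (n:ℤ)).coeff j) t '' Icc (-1) 1)
      = Icc (-1:ℝ) 1 := by
    intro t
    refine Eq.trans (image_congr fun x _ => ?_) (cheb_range hn0)
    exact cheb_field t x
  refine ⟨?_, ?_, ?_⟩
  · unfold lo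
    simp only [him, csSup_Icc (show (-1:ℝ) ≤ 1 by norm_num)]
    simp only [intervalIntegral.integral_const, sub_zero, smul_eq_mul]
    field_simp
  · unfold hi
    simp only [him, csInf_Icc (show (-1:ℝ) ≤ 1 by norm_num)]
    simp only [intervalIntegral.integral_const, sub_zero, smul_eq_mul]
    field_simp
  · intro s hs
    have hs' : -s ∈ Ioo (-1:ℝ) 1 := ⟨by linarith [hs.2], by linarith [hs.1]⟩
    refine encard_of_inj (fun k => (Icc 0 T).domRestrict (fun _ => pt n (-s) k)) ?_ ?_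
    · intro k hk
      refine ⟨fun _ => pt n (-s) k, ⟨?_, rfl, ?_⟩, rfl⟩
      · intro t _
        rw [cheb_field, pt_eval hn0 hs', neg_add_cancel]
        exact hasDerivWithinAt_const _ _ _
      · intro t _
        exact Ioo_subset_Icc_self (pt_Ioo hs' hk)
    · intro k hk l hl h
      have := congrFun h ⟨0, le_rfl, hT.le⟩
      exact pt_inj hs' hk hl this

end Pool.Agent.TH525.PU
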