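import Mathlib
import Pool.Agent.TH525.PU.Sharp

/-! Planar rigid systems. -/

open Set MeasureTheory Topology Filter
open scoped ENNReal NNReal

namespace Pool.Agent.TH525.PU

/-- The set of the closed orbits (the images of the nonconstant periodic solutions) of the planar
system `x' = f(x,y)`, `y' = g(x,y)`. -/
def closedOrbits (f g : MvPolynomial (Fin 2) ℝ) : Set (Set (ℝ × ℝ)) :=
  {C | ∃ γ : ℝ → ℝ × ℝ, ∃ T : ℝ, 0 < T ∧
    (∀ t : ℝ, HasDerivAt γ (MvPolynomial.eval ![(γ t).1, (γ t).2] f,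
      MvPolynomial.eval ![(γ t).1, (γ t).2] g) t) ∧
    (∀ t : ℝ, γ (t + T) = γ t) ∧ (∃ s t : ℝ, γ s ≠ γ t) ∧ C = range γ}

/-- The first component `- y + x (H + s)` of the rigid system. -/
noncomputable def rigidX (H : MvPolynomial (Fin 2) ℝ) (s : ℝ) : MvPolynomial (Fin 2) ℝ :=
  - MvPolynomial.X 1 + MvPolynomial.X 0 * (H + MvPolynomial.C s)

/-- The second component `x + y (H + s)` of the rigid system. -/
noncomputable def rigidY (H : MvPolynomial (Fin 2) ℝ) (s : ℝ) : MvPolynomial (Fin 2) ℝ :=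
  MvPolynomial.X 0 + MvPolynomial.X 1 * (H + MvPolynomial.C s)

/-- The closed disc of radius `R` about the origin. -/
def disc (R : ℝ) : Set (ℝ × ℝ) := {p | p.1 ^ 2 + p.2 ^ 2 ≤ R ^ 2}

/-- the function `H` in polar coordinates -/
noncomputable def pol (H : MvPolynomial (Fin 2) ℝ) (t r : ℝ) : ℝ :=
  MvPolynomial.eval ![r * Real.cos t, r * Real.sin t] H

/-- the scalar equation in logarithmic polar coordinates -/
noncomputable def lp (H : MvPolynomial (Fin 2) ℝ) (t x : ℝ) : ℝ := pol H t (Real.exp x)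

lemma evalH_cont (H : MvPolynomial (Fin 2) ℝ) :
    Continuous fun p : ℝ × ℝ => MvPolynomial.eval ![p.1, p.2] H := by
  refine H.continuous_eval.comp ?_
  refine continuous_pi fun i => ?_
  fin_cases i
  · exact continuous_fst
  · exact continuous_snd

lemma evalH_contDiff (H : MvPolynomial (Fin 2) ℝ) {n : WithTop ℕ∞} {E : Type*}
    [NormedAddCommGroup E] [NormedSpace ℝ E] {u v : E → ℝ}
    (hu : ContDiff ℝ n u) (hv : ContDiff ℝ n v) :
    ContDiff ℝ n fun p : E => MvPolynomial.eval ![u p, v p] H := by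
  induction H using MvPolynomial.induction_on with
  | C a => simpa using contDiff_const
  | add p q hp hq => simpa using hp.add hq
  | mul_X p i hp =>
    fin_cases i
    · simpa using hp.mul hu
    · simpa using hp.mul hv

lemma pol_lip (H : MvPolynomial (Fin 2) ℝ) (R : ℝ) :
    ∃ K : ℝ≥0, ∀ t, LipschitzOnWith K (pol H t) (Icc 0 R) := by
  have h1 : ContDiff ℝ 1 fun p : ℝ × ℝ => MvPolynomial.eval
      ![p.2 * Real.cos p.1, p.2 * Real.sin p.1] H :=
    evalH_contDiff H (contDiff_snd.mul (Real.contDiff_cos.comp contDiff_fst))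
      (contDiff_snd.mul (Real.contDiff_sin.comp contDiff_fst))
  obtain ⟨K, hK⟩ := ContDiffOn.exists_lipschitzOnWith (n := 1)
    (s := Icc (0:ℝ) (2 * Real.pi) ×ˢ Icc 0 R) h1.contDiffOn (by simp)
    ((convex_Icc _ _).prod (convex_Icc _ _)) (isCompact_Icc.prod isCompact_Icc)
  refine ⟨K, fun t => ?_⟩
  obtain ⟨t', ht', hc⟩ : ∃ t' ∈ Icc (0:ℝ) (2 * Real.pi), Real.cos t' = Real.cos t ∧
      Real.sin t' = Real.sin t := by
    refine ⟨toIcoMod Real.two_pi_pos 0 t, ?_, ?_⟩
    · have := toIcoMod_mem_Ico Real.two_pi_pos 0 t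
      rw [zero_add] at this
      exact ⟨this.1, this.2.le⟩
    · rw [toIcoMod, zsmul_eq_mul]
      exact ⟨Real.cos_sub_int_mul_two_pi _ _, Real.sin_sub_int_mul_two_pi _ _⟩
  intro x hx y hy
  have h2 := hK (x := (t', x)) ⟨ht', hx⟩ (y := (t', y)) ⟨ht', hy⟩
  simp only [hc.1, hc.2] at h2
  refine h2.trans (le_of_eq ?_)
  congr 1
  simp [Prod.edist_eq]

lemma exp_lip {R : ℝ} (hR : 0 < R) : LipschitzOnWith R.toNNReal Real.exp (Iic (Real.log R)) := by
  refine (convex_Iic _).lipschitzOnWith_of_nnnorm_hasDerivWithin_le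
    (f' := Real.exp) (fun x _ => (Real.hasDerivAt_exp x).hasDerivWithinAt) ?_
  intro x hx
  rw [← NNReal.coe_le_coe, coe_nnnorm, Real.norm_eq_abs, Real.abs_exp,
    Real.coe_toNNReal _ hR.le]
  calc Real.exp x ≤ Real.exp (Real.log R) := Real.exp_le_exp.2 hx
    _ = R := Real.exp_log hR

lemma exp_maps {R : ℝ} (hR : 0 < R) : MapsTo Real.exp (Iic (Real.log R)) (Icc 0 R) := by
  intro x hx
  refine ⟨(Real.exp_pos x).le, ?_⟩
  calc Real.exp x ≤ Real.exp (Real.log R) := Real.exp_le_exp.2 hx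
    _ = R := Real.exp_log hR

lemma lp_lip (H : MvPolynomial (Fin 2) ℝ) {R : ℝ} (hR : 0 < R) :
    ∃ K : ℝ≥0, ∀ t, LipschitzOnWith K (lp H t) (Iic (Real.log R)) := by
  obtain ⟨K, hK⟩ := pol_lip H R
  exact ⟨K * R.toNNReal, fun t => (hK t).comp (exp_lip hR) (exp_maps hR)⟩

lemma lp_cont (H : MvPolynomial (Fin 2) ℝ) : Continuous (Function.uncurry (lp H)) := by
  have : ContDiff ℝ 1 fun p : ℝ × ℝ => MvPolynomial.eval
      ![Real.exp p.2 * Real.cos p.1, Real.exp p.2 * Real.sin p.1] H :=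
    evalH_contDiff H ((Real.contDiff_exp.comp contDiff_snd).mul
      (Real.contDiff_cos.comp contDiff_fst))
      ((Real.contDiff_exp.comp contDiff_snd).mul (Real.contDiff_sin.comp contDiff_fst))
  exact this.continuous

/-- the polynomial in `r` -/
noncomputable def rpoly (H : MvPolynomial (Fin 2) ℝ) (t : ℝ) : Polynomial ℝ :=
  MvPolynomial.aeval ![Polynomial.C (Real.cos t) * Polynomial.X,
    Polynomial.C (Real.sin t) * Polynomial.X] H

lemma rpoly_eval (H : MvPolynomial (Fin 2) ℝ) (t r : ℝ) : (rpoly H t).eval r = pol H t r := by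
  unfold rpoly pol
  induction H using MvPolynomial.induction_on with
  | C a => simp
  | add p q hp hq => simp [hp, hq]
  | mul_X p i hp =>
    rw [map_mul, Polynomial.eval_mul, hp, map_mul]
    congr 1
    fin_cases i
    · simp; ring
    · simp; ring

lemma rpoly_deg (H : MvPolynomial (Fin 2) ℝ) {d : ℕ} (hd : H.totalDegree ≤ d) (t : ℝ) :
    (rpoly H t).natDegree ≤ d := by
  unfold rpoly
  rw [MvPolynomial.aeval_def, MvPolynomial.eval₂_eq']
  refine Polynomial.natDegree_sum_le_of_forall_le _ _ fun m hm => ?_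
  have h1 : m.sum (fun _ e => e) ≤ d := (MvPolynomial.le_totalDegree hm).trans hd
  rw [Finsupp.sum_fintype _ _ (by simp), Fin.sum_univ_two] at h1
  rw [Fin.prod_univ_two]
  simp only [Polynomial.algebraMap_eq, Matrix.cons_val_zero, Matrix.cons_val_one]
  have h2 : ∀ a : ℝ, ∀ k : ℕ, ((Polynomial.C a * Polynomial.X) ^ k).natDegree ≤ k := by
    intro a k
    refine Polynomial.natDegree_pow_le.trans ?_
    calc k * (Polynomial.C a * Polynomial.X).natDegree ≤ k * 1 :=
          Nat.mul_le_mul_left _ ((Polynomial.natDegree_C_mul_le a _).trans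
            Polynomial.natDegree_X_le)
      _ = k := mul_one k
  refine Polynomial.natDegree_mul_le.trans ?_
  rw [Polynomial.natDegree_C, zero_add]
  refine Polynomial.natDegree_mul_le.trans ?_
  exact (add_le_add (h2 _ _) (h2 _ _)).trans h1

lemma pol_neg (H : MvPolynomial (Fin 2) ℝ) (t r : ℝ) : pol H (t + Real.pi) r = pol H t (-r) := by
  unfold pol
  rw [Real.cos_add_pi, Real.sin_add_pi]
  congr 2
  ext i; fin_cases i <;> simp

lemma pol_disc (t : ℝ) {r R : ℝ} (hr : |r| ≤ R) :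
    ((r * Real.cos t, r * Real.sin t) : ℝ × ℝ) ∈ disc R := by
  show (r * Real.cos t) ^ 2 + (r * Real.sin t) ^ 2 ≤ R ^ 2
  have h1 : (r * Real.cos t) ^ 2 + (r * Real.sin t) ^ 2 = r ^ 2 := by
    have := Real.sin_sq_add_cos_sq t
    nlinarith
  rw [h1]
  exact sq_le_sq' (by linarith [neg_abs_le r]) ((le_abs_self r).trans hr)

/-- the variations in opposite directions add up -/
lemma var_pair {H : MvPolynomial (Fin 2) ℝ} {d : ℕ} (hd : H.totalDegree ≤ d) {R m M : ℝ}
    (hR : 0 < R) (hmM : ∀ p ∈ disc R, m ≤ MvPolynomial.eval ![p.1, p.2] H ∧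
      MvPolynomial.eval ![p.1, p.2] H ≤ M) (t : ℝ) :
    eVariationOn (pol H t) (Icc 0 R) + eVariationOn (pol H (t + Real.pi)) (Icc 0 R) ≤
      d * ENNReal.ofReal (M - m) := by
  have h1 : eVariationOn (pol H (t + Real.pi)) (Icc 0 R) = eVariationOn (pol H t) (Icc (-R) 0) := by
    have h2 : pol H (t + Real.pi) = pol H t ∘ (fun r => -r) := by
      ext r; exact pol_neg H t r
    rw [h2, eVariationOn.comp_eq_of_antitoneOn (pol H t) (fun r => -r)
      (fun x _ y _ h => neg_le_neg h)]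
    congr 1
    simp
  have h3 := eVariationOn.Icc_add_Icc (pol H t) (s := univ) (a := -R) (b := 0) (c := R)
    (by linarith) hR.le (mem_univ _)
  simp only [univ_inter] at h3
  rw [h1, add_comm, h3]
  have hb : ∀ r ∈ Icc (-R) R, m ≤ (rpoly H t).eval r ∧ (rpoly H t).eval r ≤ M := by
    intro r hr
    have h5 := hmM (r * Real.cos t, r * Real.sin t) (pol_disc t (abs_le.2 hr))
    rw [rpoly_eval, pol]
    exact h5
  have h4 := poly_var (rpoly H t) (rpoly_deg H hd t) hb
  have h6 : (fun x => (rpoly H t).eval x) = pol H t := by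
    ext x; exact rpoly_eval H t x
  rw [h6] at h4
  exact h4

lemma int_var {H : MvPolynomial (Fin 2) ℝ} {d : ℕ} (hd : H.totalDegree ≤ d) {R m M : ℝ}
    (hR : 0 < R) (hmM : ∀ p ∈ disc R, m ≤ MvPolynomial.eval ![p.1, p.2] H ∧
      MvPolynomial.eval ![p.1, p.2] H ≤ M) :
    ∫⁻ t in Icc 0 (2 * Real.pi), eVariationOn (pol H t) (Icc 0 R) ≤
      ENNReal.ofReal Real.pi * (d * ENNReal.ofReal (M - m)) := by
  set v : ℝ → ℝ≥0∞ := fun t => eVariationOn (pol H t) (Icc 0 R) with hv
  have hpi := Real.pi_pos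
  have h1 : ∫⁻ t in Ico 0 (2 * Real.pi), v t =
      (∫⁻ t in Ico 0 Real.pi, v t) + ∫⁻ t in Ico Real.pi (2 * Real.pi), v t := by
    rw [← lintegral_union measurableSet_Ico, Ico_union_Ico_eq_Ico hpi.le (by linarith)]
    rw [Set.disjoint_left]
    intro x hx hx'
    exact absurd hx.2 (not_lt.2 hx'.1)
  have h2 : ∫⁻ t in Ico Real.pi (2 * Real.pi), v t = ∫⁻ t in Ico 0 Real.pi, v (t + Real.pi) := by
    rw [← lintegral_indicator measurableSet_Ico, ← lintegral_indicator measurableSet_Ico,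
      ← lintegral_add_right_eq_self _ Real.pi]
    congr 1
    ext t
    by_cases ht : t ∈ Ico 0 Real.pi
    · rw [indicator_of_mem ht, indicator_of_mem]
      exact ⟨by linarith [ht.1], by linarith [ht.2]⟩
    · rw [indicator_of_notMem ht, indicator_of_notMem]
      intro h
      exact ht ⟨by linarith [h.1], by linarith [h.2]⟩
  rw [← setLIntegral_congr (Ico_ae_eq_Icc (α := ℝ)), h1, h2]
  calc _ ≤ ∫⁻ t in Ico 0 Real.pi, (v t + v (t + Real.pi)) := le_lintegral_add _ _
    _ ≤ ∫⁻ t in Ico 0 Real.pi, (d * ENNReal.ofReal (M - m)) := by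
        refine lintegral_mono fun t => ?_
        exact var_pair hd hR hmM t
    _ = _ := by
        rw [lintegral_const, Measure.restrict_apply MeasurableSet.univ, univ_inter,
          Real.volume_Ico, sub_zero, mul_comm]

end Pool.Agent.TH525.PU
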