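import Mathlib
import Pool.Agent.TH525.PU.Rigid

/-! Closed orbits of rigid systems in logarithmic polar coordinates. -/

open Set MeasureTheory Topology Filter
open scoped ENNReal NNReal

namespace Pool.Agent.TH525.PU

/-- the curve with logarithmic polar equation `ρ` -/
noncomputable def curve (ρ : ℝ → ℝ) (t : ℝ) : ℝ × ℝ :=
  (Real.exp (ρ t) * Real.cos t, Real.exp (ρ t) * Real.sin t)

theorem orbit_polar_aux {H : MvPolynomial (Fin 2) ℝ} {s : ℝ} {γ : ℝ → ℝ × ℝ}
    (hγ : ∀ t, HasDerivAt γ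
      (- (γ t).2 + (γ t).1 * (MvPolynomial.eval ![(γ t).1, (γ t).2] H + s),
        (γ t).1 + (γ t).2 * (MvPolynomial.eval ![(γ t).1, (γ t).2] H + s)) t)
    (hnc : ∃ a b, γ a ≠ γ b) :
    ∃ ρ : ℝ → ℝ, ∃ θ : ℝ, (∀ t, curve ρ t = γ (t - θ)) ∧
      ∀ t, HasDerivAt ρ (lp H t (ρ t) + s) t := by
  have hx : ∀ t, HasDerivAt (fun t => (γ t).1)
      (- (γ t).2 + (γ t).1 * (MvPolynomial.eval ![(γ t).1, (γ t).2] H + s)) t :=
    fun t => (hγ t).fst
  have hy : ∀ t, HasDerivAt (fun t => (γ t).2)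
      ((γ t).1 + (γ t).2 * (MvPolynomial.eval ![(γ t).1, (γ t).2] H + s)) t :=
    fun t => (hγ t).snd
  have hcont : Continuous γ := continuous_iff_continuousAt.2 fun t => (hγ t).continuousAt
  set h : ℝ → ℝ := fun t => MvPolynomial.eval ![(γ t).1, (γ t).2] H + s with hh
  have hhc : Continuous h := ((evalH_cont H).comp hcont).add continuous_const
  set A : ℝ → ℝ := fun t => ∫ τ in (0:ℝ)..t, h τ with hA
  have hAd : ∀ t, HasDerivAt A (h t) t := fun t =>
    intervalIntegral.integral_hasDerivAt_right (hhc.intervalIntegrable _ _)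
      (hhc.stronglyMeasurableAtFilter _ _) hhc.continuousAt
  have hA0 : A 0 = 0 := by simp [hA]
  have hE : ∀ t, HasDerivAt (fun t => Real.exp (- A t)) (Real.exp (- A t) * (- h t)) t :=
    fun t => (hAd t).neg.exp
  have hu : ∀ t, Real.exp (- A t) * ((γ t).1 * Real.cos t + (γ t).2 * Real.sin t) = (γ 0).1 := by
    intro t
    have hd : ∀ t, HasDerivAt (fun t => Real.exp (- A t) *
        ((γ t).1 * Real.cos t + (γ t).2 * Real.sin t)) 0 t := by
      intro t
      have := (hE t).mul (((hx t).mul (Real.hasDerivAt_cos t)).add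
        ((hy t).mul (Real.hasDerivAt_sin t)))
      refine this.congr_deriv ?_
      simp only [hh, Pi.add_apply, Pi.mul_apply]
      ring
    have := is_const_of_deriv_eq_zero (fun t => (hd t).differentiableAt) (fun t => (hd t).deriv) t 0
    rw [this]
    simp [hA0]
  have hv : ∀ t, Real.exp (- A t) * ((γ t).2 * Real.cos t - (γ t).1 * Real.sin t) = (γ 0).2 := by
    intro t
    have hd : ∀ t, HasDerivAt (fun t => Real.exp (- A t) *
        ((γ t).2 * Real.cos t - (γ t).1 * Real.sin t)) 0 t := by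
      intro t
      have := (hE t).mul (((hy t).mul (Real.hasDerivAt_cos t)).sub
        ((hx t).mul (Real.hasDerivAt_sin t)))
      refine this.congr_deriv ?_
      simp only [hh, Pi.sub_apply, Pi.mul_apply]
      ring
    have := is_const_of_deriv_eq_zero (fun t => (hd t).differentiableAt) (fun t => (hd t).deriv) t 0
    rw [this]
    simp [hA0]
  set z : ℂ := ⟨(γ 0).1, (γ 0).2⟩ with hz
  set r0 : ℝ := ‖z‖ with hr0
  set θ : ℝ := z.arg with hθ
  have c1 : r0 * Real.cos θ = (γ 0).1 := Complex.norm_mul_cos_arg z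
  have c2 : r0 * Real.sin θ = (γ 0).2 := Complex.norm_mul_sin_arg z
  have hx' : ∀ t, (γ t).1 = r0 * Real.exp (A t) * Real.cos (t + θ) := by
    intro t
    have h1 := hu t
    have h2 := hv t
    have h3 : Real.exp (A t) * Real.exp (- A t) = 1 := by rw [← Real.exp_add]; simp
    have h4 := Real.sin_sq_add_cos_sq t
    rw [Real.cos_add]
    have h5 : r0 * Real.exp (A t) * (Real.cos t * Real.cos θ - Real.sin t * Real.sin θ) =
        Real.exp (A t) * ((γ 0).1 * Real.cos t - (γ 0).2 * Real.sin t) := by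
      rw [← c1, ← c2]; ring
    rw [h5, ← h1, ← h2]
    calc (γ t).1 = (Real.exp (A t) * Real.exp (- A t)) * ((γ t).1 *
          (Real.sin t ^ 2 + Real.cos t ^ 2)) := by rw [h3, h4]; ring
      _ = _ := by ring
  have hy' : ∀ t, (γ t).2 = r0 * Real.exp (A t) * Real.sin (t + θ) := by
    intro t
    have h1 := hu t
    have h2 := hv t
    have h3 : Real.exp (A t) * Real.exp (- A t) = 1 := by rw [← Real.exp_add]; simp
    have h4 := Real.sin_sq_add_cos_sq t
    rw [Real.sin_add]
    have h5 : r0 * Real.exp (A t) * (Real.sin t * Real.cos θ + Real.cos t * Real.sin θ) =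
        Real.exp (A t) * ((γ 0).1 * Real.sin t + (γ 0).2 * Real.cos t) := by
      rw [← c1, ← c2]; ring
    rw [h5, ← h1, ← h2]
    calc (γ t).2 = (Real.exp (A t) * Real.exp (- A t)) * ((γ t).2 *
          (Real.sin t ^ 2 + Real.cos t ^ 2)) := by rw [h3, h4]; ring
      _ = _ := by ring
  have hr0p : 0 < r0 := by
    rcases (norm_nonneg z).eq_or_lt with h0 | h0
    · exfalso
      obtain ⟨a, b, hab⟩ := hnc
      apply hab
      have hr : r0 = 0 := h0.symm
      ext
      · rw [hx' a, hx' b, hr]; ring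
      · rw [hy' a, hy' b, hr]; ring
    · exact h0
  have hcur : ∀ t, curve (fun t => Real.log r0 + A (t - θ)) t = γ (t - θ) := by
    intro t
    unfold curve
    rw [Real.exp_add, Real.exp_log hr0p]
    ext
    · simp only [hx' (t - θ), sub_add_cancel]
    · simp only [hy' (t - θ), sub_add_cancel]
  refine ⟨fun t => Real.log r0 + A (t - θ), θ, hcur, fun t => ?_⟩
  have h1 : HasDerivAt (fun t => A (t - θ)) (h (t - θ)) t :=
    (hAd (t - θ)).comp_sub_const t θ
  refine (h1.const_add (Real.log r0)).congr_deriv ?_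
  have h2 := hcur t
  simp only [hh, lp, pol]
  rw [← h2]
  rfl

theorem orbit_polar {H : MvPolynomial (Fin 2) ℝ} {s : ℝ} {γ : ℝ → ℝ × ℝ}
    (hγ : ∀ t, HasDerivAt γ
      (- (γ t).2 + (γ t).1 * (MvPolynomial.eval ![(γ t).1, (γ t).2] H + s),
        (γ t).1 + (γ t).2 * (MvPolynomial.eval ![(γ t).1, (γ t).2] H + s)) t)
    {S : ℝ} (hS : 0 < S) (hper : ∀ t, γ (t + S) = γ t)
    (hnc : ∃ a b, γ a ≠ γ b) {R : ℝ} (hR : 0 < R) (hdisc : range γ ⊆ disc R) :
    ∃ ρ : ℝ → ℝ, IsClosedSol (2 * Real.pi) (Iic (Real.log R)) (lp H) s ρ ∧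
      range γ = curve ρ '' Icc 0 (2 * Real.pi) := by
  obtain ⟨ρ, θ, hcur, hρ⟩ := orbit_polar_aux hγ hnc
  have hpi := Real.two_pi_pos
  have hmem : ∀ t, ρ t ∈ Iic (Real.log R) := by
    intro t
    have h1 : curve ρ t ∈ disc R := by
      rw [hcur t]; exact hdisc ⟨_, rfl⟩
    have h2 : (Real.exp (ρ t) * Real.cos t) ^ 2 + (Real.exp (ρ t) * Real.sin t) ^ 2 ≤ R ^ 2 := h1
    have h3 : Real.exp (ρ t) ^ 2 ≤ R ^ 2 := by
      have := Real.sin_sq_add_cos_sq t
      calc Real.exp (ρ t) ^ 2 = Real.exp (ρ t) ^ 2 * (Real.sin t ^ 2 + Real.cos t ^ 2) := by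
            rw [this, mul_one]
        _ = (Real.exp (ρ t) * Real.cos t) ^ 2 + (Real.exp (ρ t) * Real.sin t) ^ 2 := by ring
        _ ≤ _ := h2
    have h4 : Real.exp (ρ t) ≤ R := abs_le_of_sq_le_sq' h3 hR.le |>.2
    exact (Real.le_log_iff_exp_le hR).2 h4
  have hcp : ∀ t, curve ρ (t + S) = curve ρ t := by
    intro t
    rw [hcur, hcur, show t + S - θ = (t - θ) + S by ring, hper]
  -- the period is a multiple of `2π`
  have hS0 : ρ S = ρ 0 ∧ Real.cos S = 1 := by
    have h1 := hcp 0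
    rw [zero_add] at h1
    unfold curve at h1
    rw [Real.cos_zero, Real.sin_zero, mul_one, mul_zero] at h1
    have h2 := congrArg Prod.fst h1
    have h3 := congrArg Prod.snd h1
    simp only at h2 h3
    have h4 : Real.exp (ρ S) ^ 2 = Real.exp (ρ 0) ^ 2 := by
      have := Real.sin_sq_add_cos_sq S
      calc Real.exp (ρ S) ^ 2 = Real.exp (ρ S) ^ 2 * (Real.sin S ^ 2 + Real.cos S ^ 2) := by
            rw [this, mul_one]
        _ = (Real.exp (ρ S) * Real.cos S) ^ 2 + (Real.exp (ρ S) * Real.sin S) ^ 2 := by ring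
        _ = _ := by rw [h2, h3]; ring
    have h5 : Real.exp (ρ S) = Real.exp (ρ 0) :=
      (pow_left_inj₀ (Real.exp_pos _).le (Real.exp_pos _).le two_ne_zero).1 h4
    refine ⟨Real.exp_injective h5, ?_⟩
    rw [h5] at h2
    have := (Real.exp_pos (ρ 0)).ne'
    exact mul_left_cancel₀ this (by rw [h2, mul_one])
  obtain ⟨k, hk⟩ := (Real.cos_eq_one_iff S).1 hS0.2
  have hk0 : 0 < k := by
    by_contra hcon
    push Not at hcon
    have : (k:ℝ) ≤ 0 := by exact_mod_cast hcon
    nlinarith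
  obtain ⟨K, hK⟩ := lp_lip H hR
  have hlp : ∀ t x, lp H (t + 2 * Real.pi) x = lp H t x := by
    intro t x
    unfold lp pol
    rw [Real.cos_add_two_pi, Real.sin_add_two_pi]
  have hρ2 : ∀ t, HasDerivAt (fun t => ρ (t + 2 * Real.pi))
      (lp H t (ρ (t + 2 * Real.pi)) + s) t := by
    intro t
    have := (hρ (t + 2 * Real.pi)).comp_add_const t (2 * Real.pi)
    rwa [hlp] at this
  have huniq : ∀ t₀, ρ (t₀ + 2 * Real.pi) = ρ t₀ → ∀ t, ρ (t + 2 * Real.pi) = ρ t := by
    intro t₀ ht₀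
    have h1 := ODE_solution_unique_univ (v := fun t x => lp H t x + s)
      (s := fun _ => Iic (Real.log R)) (K := K) (t₀ := t₀) (f := fun t => ρ (t + 2 * Real.pi))
      (g := ρ) (fun t => by
        intro a ha b hb
        have := hK t ha hb
        simpa [edist_add_right] using this)
      (fun t => ⟨hρ2 t, hmem _⟩) (fun t => ⟨hρ t, hmem _⟩) ht₀
    intro t
    exact congrFun h1 t
  have hρc : Continuous ρ := continuous_iff_continuousAt.2 fun t => (hρ t).continuousAt
  set D : ℝ → ℝ := fun t => ρ (t + 2 * Real.pi) - ρ t with hD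
  have hDc : Continuous D := (hρc.comp (continuous_id.add continuous_const)).sub hρc
  have hchain : ∀ j : ℕ, ρ (2 * Real.pi * (j + 1)) - ρ 0 =
      ∑ i ∈ Finset.range (j + 1), D (2 * Real.pi * i) := by
    intro j
    induction j with
    | zero => simp [hD]
    | succ j ih =>
      rw [Finset.sum_range_succ, ← ih]
      simp only [hD]
      push_cast
      rw [show 2 * Real.pi * ((j:ℝ) + 1) + 2 * Real.pi = 2 * Real.pi * (j + 1 + 1) by ring]
      ring
  obtain ⟨j, hj⟩ : ∃ j : ℕ, k = (j:ℤ) + 1 := ⟨(k - 1).toNat, by omega⟩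
  have hsum : ∑ i ∈ Finset.range (j + 1), D (2 * Real.pi * i) = 0 := by
    rw [← hchain j]
    have : 2 * Real.pi * ((j:ℝ) + 1) = S := by
      rw [← hk, hj]; push_cast; ring
    rw [this, hS0.1, sub_self]
  have hzero : ∃ t₀, D t₀ = 0 := by
    by_contra hcon
    push Not at hcon
    rcases lt_or_gt_of_ne (hcon 0) with h0 | h0
    · have hneg : ∀ t, D t < 0 := by
        intro t
        by_contra hc
        push Not at hc
        obtain ⟨t₀, ht₀⟩ := mem_range_of_exists_le_of_exists_ge hDc ⟨0, h0.le⟩ ⟨t, hc⟩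
        exact hcon t₀ ht₀
      have := Finset.sum_neg (s := Finset.range (j + 1)) (f := fun i : ℕ => D (2 * Real.pi * i))
        (fun i _ => hneg _) ⟨0, by simp⟩
      linarith
    · have hpos : ∀ t, 0 < D t := by
        intro t
        by_contra hc
        push Not at hc
        obtain ⟨t₀, ht₀⟩ := mem_range_of_exists_le_of_exists_ge hDc ⟨t, hc⟩ ⟨0, h0.le⟩
        exact hcon t₀ ht₀
      have := Finset.sum_pos (s := Finset.range (j + 1)) (f := fun i : ℕ => D (2 * Real.pi * i))
        (fun i _ => hpos _) ⟨0, by simp⟩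
      linarith
  obtain ⟨t₀, ht₀⟩ := hzero
  have hp := huniq t₀ (by simp only [hD] at ht₀; linarith)
  refine ⟨ρ, ⟨fun t _ => (hρ t).hasDerivWithinAt, ?_, fun t _ => hmem t⟩, ?_⟩
  · have := hp 0
    rw [zero_add] at this
    exact this.symm
  · have h1 : Function.Periodic (curve ρ) (2 * Real.pi) := by
      intro t
      unfold curve
      rw [hp, Real.cos_add_two_pi, Real.sin_add_two_pi]
    have h2 := h1.image_Icc hpi 0
    rw [zero_add] at h2
    rw [h2]
    ext p
    constructor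
    · rintro ⟨t, rfl⟩
      exact ⟨t + θ, by rw [hcur]; simp⟩
    · rintro ⟨t, rfl⟩
      exact ⟨t - θ, (hcur t).symm⟩

end Pool.Agent.TH525.PU
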