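import Mathlib
import Pool.Agent.TH525.PU.Orbit

/-! The mean number of closed orbits of rigid systems. -/

open Set MeasureTheory Topology Filter
open scoped ENNReal NNReal

namespace Pool.Agent.TH525.PU

/-- The set of the closed orbits, contained in the closed disc of radius `R`, of the rigid system
`x' = - y + x (H + s)`, `y' = x + y (H + s)`. -/
def rigidOrbits (H : MvPolynomial (Fin 2) ℝ) (R s : ℝ) : Set (Set (ℝ × ℝ)) :=
  {C | C ∈ closedOrbits (rigidX H s) (rigidY H s) ∧ C ⊆ disc R}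

lemma eval_rigidX (H : MvPolynomial (Fin 2) ℝ) (s x y : ℝ) :
    MvPolynomial.eval ![x, y] (rigidX H s) = - y + x * (MvPolynomial.eval ![x, y] H + s) := by
  simp [rigidX]

lemma eval_rigidY (H : MvPolynomial (Fin 2) ℝ) (s x y : ℝ) :
    MvPolynomial.eval ![x, y] (rigidY H s) = x + y * (MvPolynomial.eval ![x, y] H + s) := by
  simp [rigidY]

lemma rigid_polar {H : MvPolynomial (Fin 2) ℝ} {R s : ℝ} (hR : 0 < R) {C : Set (ℝ × ℝ)}
    (hC : C ∈ rigidOrbits H R s) :
    ∃ ρ : ℝ → ℝ, IsClosedSol (2 * Real.pi) (Iic (Real.log R)) (lp H) s ρ ∧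
      C = curve ρ '' Icc 0 (2 * Real.pi) := by
  obtain ⟨⟨γ, S, hS, hγ, hper, hnc, rfl⟩, hsub⟩ := hC
  refine orbit_polar (fun t => ?_) hS hper hnc hR hsub
  have := hγ t
  rwa [eval_rigidX, eval_rigidY] at this

lemma curve_disc {ρ : ℝ → ℝ} {R t : ℝ} (hR : 0 < R) (h : ρ t ∈ Iic (Real.log R)) :
    curve ρ t ∈ disc R := by
  have h1 := exp_maps hR h
  exact pol_disc t (by rw [abs_of_nonneg h1.1]; exact h1.2)

theorem rigid_empty {H : MvPolynomial (Fin 2) ℝ} {R m M : ℝ} (hR : 0 < R)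
    (hmM : ∀ p ∈ disc R, m ≤ MvPolynomial.eval ![p.1, p.2] H ∧
      MvPolynomial.eval ![p.1, p.2] H ≤ M) {s : ℝ} (hs : s ∉ Icc (-M) (-m)) :
    rigidOrbits H R s = ∅ := by
  by_contra hne
  obtain ⟨C, hC⟩ := Set.nonempty_iff_ne_empty.2 hne
  obtain ⟨ρ, hρ, -⟩ := rigid_polar hR hC
  apply hs
  have hpi := Real.two_pi_pos
  have h1 := mean_formula hpi (lp_cont H) hρ
  have i0 : IntervalIntegrable (fun t => lp H t (ρ t)) volume 0 (2 * Real.pi) :=
    ((hρ.contf (lp_cont H)).mono (by rw [uIcc_of_le hpi.le])).intervalIntegrable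
  have hb : ∀ t ∈ Icc 0 (2 * Real.pi), m ≤ lp H t (ρ t) ∧ lp H t (ρ t) ≤ M := by
    intro t ht
    have h5 := hmM (curve ρ t) (curve_disc (t := t) hR (hρ.mem t ht))
    have h6 : lp H t (ρ t) = MvPolynomial.eval ![(curve ρ t).1, (curve ρ t).2] H := rfl
    rw [h6]
    exact h5
  have h2 : (2 * Real.pi) * m ≤ ∫ t in (0:ℝ)..(2 * Real.pi), lp H t (ρ t) := by
    have := intervalIntegral.integral_mono_on (f := fun _ => m) hpi.le
      intervalIntegrable_const i0 (fun t ht => (hb t ht).1)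
    simpa using this
  have h3 : ∫ t in (0:ℝ)..(2 * Real.pi), lp H t (ρ t) ≤ (2 * Real.pi) * M := by
    have := intervalIntegral.integral_mono_on (g := fun _ => M) hpi.le
      i0 intervalIntegrable_const (fun t ht => (hb t ht).2)
    simpa using this
  constructor
  · have : (2 * Real.pi) * (-M) ≤ (2 * Real.pi) * s := by rw [h1]; linarith
    exact le_of_mul_le_mul_left this hpi
  · have : (2 * Real.pi) * s ≤ (2 * Real.pi) * (-m) := by rw [h1]; linarith
    exact le_of_mul_le_mul_left this hpi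

theorem rigid_mean {H : MvPolynomial (Fin 2) ℝ} {d : ℕ} (hd : H.totalDegree ≤ d) {R m M : ℝ}
    (hR : 0 < R) (hmM : ∀ p ∈ disc R, m ≤ MvPolynomial.eval ![p.1, p.2] H ∧
      MvPolynomial.eval ![p.1, p.2] H ≤ M) :
    ∃ g : ℝ → ℝ≥0∞, Measurable g ∧ (∀ s, ((rigidOrbits H R s).encard : ℝ≥0∞) ≤ g s) ∧
      2 * ∫⁻ s, g s ≤ d * ENNReal.ofReal (M - m) := by
  have hpi := Real.two_pi_pos
  obtain ⟨K, hK⟩ := lp_lip H hR
  obtain ⟨g, hgm, hg, hgi⟩ := mainA hpi (lp_cont H) (fun t _ => hK t)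
  refine ⟨g, hgm, fun s => le_trans ?_ (hg s), ?_⟩
  · refine ENat.toENNReal_le.2 ?_
    have hsub : rigidOrbits H R s ⊆
        (fun h : Icc 0 (2 * Real.pi) → ℝ => range fun t : Icc 0 (2 * Real.pi) =>
          ((Real.exp (h t) * Real.cos t, Real.exp (h t) * Real.sin t) : ℝ × ℝ)) ''
          closedSols (2 * Real.pi) (Iic (Real.log R)) (lp H) s := by
      intro C hC
      obtain ⟨ρ, hρ, hCρ⟩ := rigid_polar hR hC
      refine ⟨(Icc 0 (2 * Real.pi)).domRestrict ρ, ⟨ρ, hρ, rfl⟩, ?_⟩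
      rw [hCρ]
      ext p
      constructor
      · rintro ⟨t, rfl⟩
        exact ⟨t, t.2, rfl⟩
      · rintro ⟨t, ht, rfl⟩
        exact ⟨⟨t, ht⟩, rfl⟩
    exact (encard_le_encard hsub).trans (encard_image_le _ _)
  · have h1 : ∫⁻ t in Icc 0 (2 * Real.pi), eVariationOn (lp H t) (Iic (Real.log R)) ≤
        ENNReal.ofReal Real.pi * (d * ENNReal.ofReal (M - m)) := by
      refine le_trans (lintegral_mono fun t => ?_) (int_var hd hR hmM)
      exact eVariationOn.comp_le_of_monotoneOn (pol H t) Real.exp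
        (Real.exp_monotone.monotoneOn _) (exp_maps hR)
    calc 2 * ∫⁻ s, g s ≤ 2 * (ENNReal.ofReal (1 / (2 * Real.pi)) *
          (ENNReal.ofReal Real.pi * (d * ENNReal.ofReal (M - m)))) := by
          gcongr
          exact hgi.trans (by gcongr)
      _ = (2 * ENNReal.ofReal (1 / (2 * Real.pi)) * ENNReal.ofReal Real.pi) *
          (d * ENNReal.ofReal (M - m)) := by ring
      _ = 1 * (d * ENNReal.ofReal (M - m)) := by
          congr 1
          rw [show (2:ℝ≥0∞) = ENNReal.ofReal 2 by simp, ← ENNReal.ofReal_mul (by norm_num),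
            ← ENNReal.ofReal_mul (by positivity)]
          rw [show 2 * (1 / (2 * Real.pi)) * Real.pi = 1 by field_simp]
          simp
      _ = _ := one_mul _

/-- the polynomial `T_m (2 (x² + y²) / R² - 1)` -/
noncomputable def chebH (m : ℕ) (R : ℝ) : MvPolynomial (Fin 2) ℝ :=
  ∑ j ∈ Finset.range (m + 1), MvPolynomial.C ((Polynomial.Chebyshev.T ℝ (m:ℤ)).coeff j) *
    (MvPolynomial.C (2 / R ^ 2) * (MvPolynomial.X 0 ^ 2 + MvPolynomial.X 1 ^ 2) - 1) ^ j

lemma chebH_eval (m : ℕ) (R x y : ℝ) : MvPolynomial.eval ![x, y] (chebH m R) =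
    (Polynomial.Chebyshev.T ℝ (m:ℤ)).eval (2 / R ^ 2 * (x ^ 2 + y ^ 2) - 1) := by
  rw [Polynomial.eval_eq_sum_range' (n := m + 1)]
  · simp [chebH]
  · rw [Polynomial.Chebyshev.natDegree_T]; simp

lemma chebH_deg (m : ℕ) (R : ℝ) : (chebH m R).totalDegree ≤ 2 * m := by
  unfold chebH
  refine (MvPolynomial.totalDegree_finsetSum_le fun j hj => ?_)
  refine (MvPolynomial.totalDegree_mul _ _).trans ?_
  rw [MvPolynomial.totalDegree_C, zero_add]
  refine (MvPolynomial.totalDegree_pow _ _).trans ?_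
  have h1 : (MvPolynomial.C (2 / R ^ 2) * (MvPolynomial.X 0 ^ 2 + MvPolynomial.X 1 ^ 2) - 1 :
      MvPolynomial (Fin 2) ℝ).totalDegree ≤ 2 := by
    refine (MvPolynomial.totalDegree_sub _ _).trans (max_le ?_ (by simp))
    refine (MvPolynomial.totalDegree_mul _ _).trans ?_
    rw [MvPolynomial.totalDegree_C, zero_add]
    refine (MvPolynomial.totalDegree_add _ _).trans (max_le ?_ ?_)
    · exact (MvPolynomial.totalDegree_pow _ _).trans (by simp)
    · exact (MvPolynomial.totalDegree_pow _ _).trans (by simp)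
  have := Finset.mem_range.1 hj
  nlinarith

lemma circle_orbit {H : MvPolynomial (Fin 2) ℝ} {R r s : ℝ} (hr : 0 < r) (hrR : r ≤ R)
    (hH : ∀ t, MvPolynomial.eval ![r * Real.cos t, r * Real.sin t] H = -s) :
    (range fun t : ℝ => ((r * Real.cos t, r * Real.sin t) : ℝ × ℝ)) ∈ rigidOrbits H R s := by
  refine ⟨⟨fun t => (r * Real.cos t, r * Real.sin t), 2 * Real.pi, Real.two_pi_pos, ?_, ?_, ?_,
    rfl⟩, ?_⟩
  · intro t
    rw [eval_rigidX, eval_rigidY]
    simp only [hH t, neg_add_cancel, mul_zero, add_zero]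
    have h1 := (Real.hasDerivAt_cos t).const_mul r
    have h2 := (Real.hasDerivAt_sin t).const_mul r
    have := h1.prodMk h2
    rwa [mul_neg] at this
  · intro t
    simp only [Real.cos_add_two_pi, Real.sin_add_two_pi]
  · refine ⟨0, Real.pi, ?_⟩
    intro h
    have := congrArg Prod.fst h
    simp only [Real.cos_zero, Real.cos_pi] at this
    linarith
  · rintro _ ⟨t, rfl⟩
    exact pol_disc t (by rw [abs_of_pos hr]; exact hrR)

theorem rigid_sharp {m : ℕ} (hm : 1 ≤ m) {R : ℝ} (hR : 0 < R) :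
    ∃ H : MvPolynomial (Fin 2) ℝ, H.totalDegree ≤ 2 * m ∧
      (∀ p ∈ disc R, -1 ≤ MvPolynomial.eval ![p.1, p.2] H ∧
        MvPolynomial.eval ![p.1, p.2] H ≤ 1) ∧
      ∀ s ∈ Ioo (-1:ℝ) 1, (m : ℕ∞) ≤ (rigidOrbits H R s).encard := by
  have hm0 : m ≠ 0 := by omega
  refine ⟨chebH m R, chebH_deg m R, ?_, ?_⟩
  · intro p hp
    rw [chebH_eval]
    have h1 : p.1 ^ 2 + p.2 ^ 2 ≤ R ^ 2 := hp
    refine Polynomial.Chebyshev.eval_T_real_mem_Icc m ⟨?_, ?_⟩
    · have : 0 ≤ 2 / R ^ 2 * (p.1 ^ 2 + p.2 ^ 2) := by positivity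
      linarith
    · have : 2 / R ^ 2 * (p.1 ^ 2 + p.2 ^ 2) ≤ 2 := by
        rw [div_mul_eq_mul_div, div_le_iff₀ (by positivity)]
        linarith
      linarith
  · intro s hs
    have hs' : -s ∈ Ioo (-1:ℝ) 1 := ⟨by linarith [hs.2], by linarith [hs.1]⟩
    set r : ℕ → ℝ := fun k => R * Real.sqrt ((1 + pt m (-s) k) / 2) with hr
    have hr0 : ∀ k < m, 0 < r k := by
      intro k hk
      have := (pt_Ioo hs' hk).1
      exact mul_pos hR (Real.sqrt_pos.2 (by linarith))
    have hrR : ∀ k < m, r k ≤ R := by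
      intro k hk
      have h1 := (pt_Ioo hs' hk).2
      have h2 : Real.sqrt ((1 + pt m (-s) k) / 2) ≤ 1 := by
        exact Real.sqrt_le_iff.2 ⟨zero_le_one, by linarith⟩
      calc r k ≤ R * 1 := mul_le_mul_of_nonneg_left h2 hR.le
        _ = R := mul_one R
    have hrsq : ∀ k < m, 2 / R ^ 2 * r k ^ 2 - 1 = pt m (-s) k := by
      intro k hk
      have := (pt_Ioo hs' hk).1
      simp only [hr]
      rw [mul_pow, Real.sq_sqrt (by linarith)]
      field_simp
      ring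
    refine encard_of_inj (fun k => range fun t : ℝ =>
      ((r k * Real.cos t, r k * Real.sin t) : ℝ × ℝ)) ?_ ?_
    · intro k hk
      refine circle_orbit (hr0 k hk) (hrR k hk) fun t => ?_
      rw [chebH_eval]
      have h1 : (r k * Real.cos t) ^ 2 + (r k * Real.sin t) ^ 2 = r k ^ 2 := by
        have := Real.sin_sq_add_cos_sq t
        calc _ = r k ^ 2 * (Real.sin t ^ 2 + Real.cos t ^ 2) := by ring
          _ = _ := by rw [this, mul_one]
      rw [h1, hrsq k hk, pt_eval hm0 hs']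
    · intro k hk l hl h
      have h1 : ((r k * Real.cos 0, r k * Real.sin 0) : ℝ × ℝ) ∈
          range fun t : ℝ => ((r l * Real.cos t, r l * Real.sin t) : ℝ × ℝ) := by
        rw [← h]; exact ⟨0, rfl⟩
      obtain ⟨t, ht⟩ := h1
      have h2 := congrArg (fun p : ℝ × ℝ => p.1 ^ 2 + p.2 ^ 2) ht
      simp only [Real.cos_zero, Real.sin_zero, mul_one, mul_zero] at h2
      have h3 : r l ^ 2 = r k ^ 2 := by
        have := Real.sin_sq_add_cos_sq t
        calc r l ^ 2 = r l ^ 2 * (Real.sin t ^ 2 + Real.cos t ^ 2) := by rw [this, mul_one]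
          _ = (r l * Real.cos t) ^ 2 + (r l * Real.sin t) ^ 2 := by ring
          _ = _ := by rw [h2]; ring
      apply pt_inj hs' hk hl
      rw [← hrsq k hk, ← hrsq l hl, h3]

end Pool.Agent.TH525.PU
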